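import Pool.Agent.N15.OT.Defs
import Pool.Agent.N813.EM.DefsF
import Pool.Agent.N813.FL.DefsF

/-!
# Compact group extensions of mixing systems, and of systems which are hyperbolic in the fibres: definitions

`V d = ℝ^d`, `GoodChart n N χ z`: `χ` is a chart of the smooth structure of `N` with `χ z = 0`, the
target of which contains the closed unit ball (`Pool/Agent/W564/SC/Defs.lean`). From
`Pool/Agent/N813/CL/DefsF.lean`: `ExpAct k n N R` (smooth maps `R_X = exp(X)` of `N`, `X ∈ ℝ^k`, which form
a one-parameter group on every line), `Inv F R K` (`K` is closed and invariant under `F` and the `R_X`, and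
they commute on `K`), `Quot R K π` (`π(K) = B`, the fibres of `π` in `K` are the sets `{R_X y : |X| ≤ c}`),
`TorBase d g b`. From `Pool/Agent/N813/FL/DefsF.lean`: `SkewMap`, `HypMap`. From
`Pool/Agent/N813/EM/DefsF.lean`, `Defs.lean`: `HolUp`, `HolLow`, `FinDim`, `BiLip`, `MixMeas`. `NonWand f x`:
`x` is nonwandering for `f`.
-/

set_option autoImplicit false

open scoped Manifold ContDiff Topology
open MeasureTheory Filter Set Metric

universe u v

namespace Pool.Agent.N15.OT

open Pool.Agent.H718R2.G Pool.Agent.W564.SC Pool.Agent.N813.CL.F Pool.Agent.N813.FL.F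
  Pool.Agent.N813.EM Pool.Agent.TH80.OMS

/-- `K` is a closed invariant set of `F` on which `F` is an extension, by the compact connected group
of the `R_X`, of a bi-Lipschitz homeomorphism `g` of `B = π(K)`, with an invariant measure `μ` with
`MixMeas g μ (π z)`: `μ` satisfies the Frostman condition, it is mixing of order three at least with a
stretched exponential rate, and `π z` lies in its support. The metric of `B` is finite dimensional and
Hölder comparable with the smooth structure of `N` near `z ∈ K`. -/
def MixOver (k n : ℕ) (N : Type u) [TopologicalSpace N] [ChartedSpace (V n) N] (F : N → N)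
    (R : V k → N → N) (K : Set N) (z : N) : Prop :=
  ∃ (B : Type v) (_ : MetricSpace B) (_ : CompactSpace B)
    (_ : MeasurableSpace B) (_ : BorelSpace B) (g : B ≃ₜ B) (μ : Measure B) (π : N → B)
    (χ : OpenPartialHomeomorph N (V n)), ExpAct k n N R ∧ Inv F R K ∧ Quot R K π ∧
      (∀ y ∈ K, π (F y) = g (π y)) ∧ z ∈ K ∧ GoodChart n N χ z ∧ HolUp χ K π ∧ HolLow χ R K π ∧
      FinDim B ∧ BiLip g ∧ MixMeas g μ (π z)

/-- `K` is a closed invariant set of `F` on which `F` is an extension, by the compact connected group
of the `R_X`, of a homeomorphism `g` of `B = π(K)` with `TorBase d g (π z)`: `g` maps the orbits of an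
action of `ℝ^d` on `B`, all of which are `d`-dimensional tori, to orbits, by affine maps, and it is
hyperbolic along the orbits. The map of the space of orbits is ARBITRARY, but the orbit of `π z` is
nonwandering for it. -/
def TorOver (k d n : ℕ) (N : Type u) [TopologicalSpace N] [ChartedSpace (V n) N] (F : N → N)
    (R : V k → N → N) (K : Set N) (z : N) : Prop :=
  ∃ (B : Type v) (_ : MetricSpace B) (_ : CompactSpace B)
    (g : B ≃ₜ B) (π : N → B), ExpAct k n N R ∧ Inv F R K ∧ Quot R K π ∧
      (∀ y ∈ K, π (F y) = g (π y)) ∧ z ∈ K ∧ TorBase d g (π z)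

/-- `K` is a closed invariant set of `F` on which `F` is an extension, by the compact connected group
of the `R_X`, of a skew product `(x, y) ↦ (f x, h^{τ(x)} y)`, `τ ≥ 1`, where `f` is an ARBITRARY
homeomorphism and `h` is a chain mixing homeomorphism with periodic shadowing. The point of `X` below
`z` is nonwandering for `f`. -/
def MapOver (k n : ℕ) (N : Type u) [TopologicalSpace N] [ChartedSpace (V n) N] (F : N → N)
    (R : V k → N → N) (K : Set N) (z : N) : Prop :=
  ∃ (X Y : Type v) (_ : MetricSpace X)
    (_ : CompactSpace X) (_ : MetricSpace Y) (_ : CompactSpace Y) (f : X ≃ₜ X) (τ : X → ℕ)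
    (h : Y ≃ₜ Y) (π : N → X × Y), ExpAct k n N R ∧ Inv F R K ∧ Quot R K π ∧
      SkewMap F K π f τ h ∧ HypMap h ∧ z ∈ K ∧ NonWand f (π z).1

/-- `X ↦ R_X` is an action of the group `ℝ^k`. -/
def Abelian {k : ℕ} {N : Type u} (R : V k → N → N) : Prop :=
  ∀ X X' y, R (X + X') y = R X (R X' y)

/-- (a) If `k ≥ 1`, some one-parameter group `t ↦ R_(tX)`, `X ≠ 0`, fixes `z`: the group is not
locally free at `z`. (b) If the `R_X` form an action of `ℝ^k`, all of them fix `z`. (c) If the `R_X`
are the identity on `K` (`F|K` is conjugate to the map of the base), then `z` is a limit of periodic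
points of `F`. (d) If the `R_X` commute with `F` on all of `N`, then they fix `z`, and `z` is a limit
of periodic points of `F`. -/
def Rigid {k : ℕ} {N : Type u} [TopologicalSpace N] (F : N → N) (R : V k → N → N) (K : Set N)
    (z : N) : Prop :=
  (1 ≤ k → ∃ X : V k, X ≠ 0 ∧ ∀ t : ℝ, R (t • X) z = z) ∧
  (Abelian R → ∀ X, R X z = z) ∧
  ((∀ X, ∀ y ∈ K, R X y = y) → z ∈ closure (Per F)) ∧
  ((∀ X y, F (R X y) = R X (F y)) → (∀ X, R X z = z) ∧ z ∈ closure (Per F))

end Pool.Agent.N15.OT
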