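import Pool.Agent.N15.OT.Stm

/-!
# The vector field of a smooth flow in a chart

Part FLD of project OT (helper15); proof by helper491.
-/

set_option autoImplicit false

open scoped Manifold ContDiff Topology
open Filter Set Metric

universe u

namespace Pool.Agent.N15.OT

open Pool.Agent.H718R2.G Pool.Agent.W564.SC

section

variable {n : ℕ} {N : Type u} [TopologicalSpace N] [ChartedSpace (V n) N] [IsManifold (𝓡 n) ∞ N]

theorem curve_smooth {Φ : ℝ → N → N} (h : SFlow n N Φ) (y : N) :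
    ContMDiff 𝓘(ℝ, ℝ) (𝓡 n) ∞ (fun t : ℝ => Φ t y) :=
  h.smooth.comp (contMDiff_id.prodMk contMDiff_const)

theorem time_smooth {Φ : ℝ → N → N} (h : SFlow n N Φ) (t : ℝ) :
    ContMDiff (𝓡 n) (𝓡 n) ∞ (fun y : N => Φ t y) :=
  h.smooth.comp (contMDiff_const.prodMk contMDiff_id)

/-- a curve with zero derivative is constant -/
theorem curve_const {γ : ℝ → N} (h : ∀ t, HasMFDerivAt 𝓘(ℝ, ℝ) (𝓡 n) γ t
    (0 : TangentSpace 𝓘(ℝ, ℝ) t →L[ℝ] TangentSpace (𝓡 n) (γ t))) (s t : ℝ) : γ s = γ t := by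
  have hc : Continuous γ := continuous_iff_continuousAt.2 fun t => (h t).continuousAt
  have hloc : IsLocallyConstant γ := by
    rw [IsLocallyConstant.iff_eventually_eq]
    intro t₀
    have hs : {t : ℝ | γ t ∈ (chartAt (V n) (γ t₀)).source} ∈ 𝓝 t₀ :=
      (hc.isOpen_preimage _ (chartAt (V n) (γ t₀)).open_source).mem_nhds (mem_chart_source _ _)
    obtain ⟨ε, hε, hball⟩ := Metric.mem_nhds_iff.1 hs
    have hd : ∀ t ∈ ball t₀ ε, HasDerivAt (fun t => chartAt (V n) (γ t₀) (γ t)) 0 t := by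
      intro t ht
      have h1 : ContMDiffAt (𝓡 n) (𝓡 n) ∞ (chartAt (V n) (γ t₀)) (γ t) :=
        contMDiffAt_of_mem_maximalAtlas (IsManifold.chart_mem_maximalAtlas (γ t₀)) (hball ht)
      have h2 := (h1.mdifferentiableAt (by simp)).hasMFDerivAt.comp t (h t)
      rw [ContinuousLinearMap.comp_zero] at h2
      have h3 : HasFDerivAt (fun t => chartAt (V n) (γ t₀) (γ t)) (0 : ℝ →L[ℝ] V n) t :=
        hasMFDerivAt_iff_hasFDerivAt.1 h2
      simpa using h3.hasDerivAt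
    filter_upwards [ball_mem_nhds t₀ hε] with t ht
    have h4 : chartAt (V n) (γ t₀) (γ t) = chartAt (V n) (γ t₀) (γ t₀) := by
      refine (isOpen_ball (x := t₀) (ε := ε)).is_const_of_deriv_eq_zero
        (f := fun t => chartAt (V n) (γ t₀) (γ t)) ?_ ?_ ?_ ht (mem_ball_self hε)
      · exact (convex_ball t₀ ε).isPreconnected
      · exact fun t ht => (hd t ht).differentiableAt.differentiableWithinAt
      · exact fun t ht => (hd t ht).deriv
    exact (chartAt (V n) (γ t₀)).injOn (hball ht) (mem_chart_source _ _) h4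
  exact hloc.apply_eq_of_preconnectedSpace s t

end

theorem fld : S_FLD.{u} := by
  intro n N _ _ _ _ _ Φ hΦ χ z hχ hex
  have h0t : (0 : V n) ∈ χ.target := hχ.ball (mem_closedBall_self zero_le_one)
  have hs0 : χ.symm 0 = z := by rw [← hχ.zero]; exact χ.left_inv hχ.src
  -- the flow in the chart
  obtain ⟨f, hf⟩ : ∃ f : ℝ × V n → V n, f = fun p => χ (Φ p.1 (χ.symm p.2)) := ⟨_, rfl⟩
  have hfM : ContMDiffAt (𝓘(ℝ, ℝ).prod (𝓡 n)) (𝓡 n) ∞ f ((0 : ℝ), (0 : V n)) := by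
    have h1 : ContMDiffAt (𝓘(ℝ, ℝ).prod (𝓡 n)) (𝓡 n) ∞ (fun p : ℝ × V n => χ.symm p.2)
        ((0 : ℝ), (0 : V n)) :=
      ContMDiffAt.comp (I' := 𝓡 n) ((0 : ℝ), (0 : V n))
        (contMDiffAt_symm_of_mem_maximalAtlas hχ.mem h0t) contMDiffAt_snd
    have h2 : ContMDiffAt (𝓘(ℝ, ℝ).prod (𝓡 n)) (𝓘(ℝ, ℝ).prod (𝓡 n)) ∞
        (fun p : ℝ × V n => (p.1, χ.symm p.2)) ((0 : ℝ), (0 : V n)) :=
      contMDiffAt_fst.prodMk h1
    have h3 : ContMDiffAt (𝓘(ℝ, ℝ).prod (𝓡 n)) (𝓡 n) ∞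
        (fun p : ℝ × V n => Φ p.1 (χ.symm p.2)) ((0 : ℝ), (0 : V n)) :=
      ContMDiffAt.comp (I' := 𝓘(ℝ, ℝ).prod (𝓡 n)) ((0 : ℝ), (0 : V n))
        (hΦ.smooth.contMDiffAt) h2
    rw [hf]
    refine ContMDiffAt.comp (I' := 𝓡 n) ((0 : ℝ), (0 : V n)) (g := χ)
      (contMDiffAt_of_mem_maximalAtlas hχ.mem ?_) h3
    show Φ 0 (χ.symm 0) ∈ χ.source
    rw [hΦ.zero, hs0]
    exact hχ.src
  have hfC : ContDiffAt ℝ ∞ f ((0 : ℝ), (0 : V n)) := by
    rw [← modelWithCornersSelf_prod, chartedSpaceSelf_prod] at hfM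
    exact contMDiffAt_iff_contDiffAt.1 hfM
  have hf2 : ContDiffAt ℝ ((2 : ℕ) : WithTop ℕ∞) f ((0 : ℝ), (0 : V n)) :=
    hfC.of_le (WithTop.coe_le_coe.2 le_top)
  obtain ⟨ξ, hξ⟩ : ∃ ξ : V n → V n, ξ = fun x => fderiv ℝ f (0, x) (1, 0) := ⟨_, rfl⟩
  have hξC : ContDiffAt ℝ 1 ξ 0 := by
    have h1 : ContDiffAt ℝ 1 (fderiv ℝ f) ((0 : ℝ), (0 : V n)) :=
      hf2.fderiv_right (by norm_cast)
    have h2 : ContDiffAt ℝ 1 (fun x : V n => fderiv ℝ f (0, x)) 0 :=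
      ContDiffAt.comp (0 : V n) (g := fderiv ℝ f) (f := fun x : V n => ((0 : ℝ), x)) h1
        (contDiffAt_const.prodMk contDiffAt_id)
    rw [hξ]
    exact h2.clm_apply contDiffAt_const
  obtain ⟨K, T, hT, hLip⟩ := hξC.exists_lipschitzOnWith
  -- differentiability at nearby points
  have hdiff : ∀ᶠ x : V n in 𝓝 0, DifferentiableAt ℝ f ((0 : ℝ), x) := by
    have h1 : ∀ᶠ p in 𝓝 ((0 : ℝ), (0 : V n)), ContDiffAt ℝ 1 f p :=
      (hfC.of_le (m := 1) (by exact_mod_cast le_top)).eventually (by simp)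
    have h2 : Tendsto (fun x : V n => ((0 : ℝ), x)) (𝓝 0) (𝓝 ((0 : ℝ), (0 : V n))) :=
      (continuous_const.prodMk continuous_id).continuousAt
    filter_upwards [h2.eventually h1] with x hx
    exact hx.differentiableAt (by norm_num)
  have hder : ∀ y ∈ χ.source, DifferentiableAt ℝ f ((0 : ℝ), χ y) →
      HasDerivAt (fun t => χ (Φ t y)) (ξ (χ y)) 0 := by
    intro y hy hd
    have h1 : HasDerivAt (fun t : ℝ => (t, χ y)) ((1 : ℝ), (0 : V n)) 0 :=
      (hasDerivAt_id (0 : ℝ)).prodMk (hasDerivAt_const (0 : ℝ) (χ y))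
    have h2 := hd.hasFDerivAt.comp_hasDerivAt (0 : ℝ) h1
    have h3 : (f ∘ fun t : ℝ => (t, χ y)) = fun t => χ (Φ t y) := by
      funext t
      simp only [hf, Function.comp_apply]
      rw [χ.left_inv hy]
    rw [h3] at h2
    rw [hξ]
    exact h2
  -- the field does not vanish at the centre
  have hξ0 : ξ 0 ≠ 0 := by
    intro hzero
    obtain ⟨t, ht⟩ := hex
    apply ht
    have hd0 : HasDerivAt (fun t => χ (Φ t z)) 0 0 := by
      have := hder z hχ.src (by rw [hχ.zero]; exact hdiff.self_of_nhds)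
      rwa [hχ.zero, hzero] at this
    have hm0 : HasMFDerivAt 𝓘(ℝ, ℝ) (𝓡 n) (fun t : ℝ => Φ t z) 0
        (0 : TangentSpace 𝓘(ℝ, ℝ) (0 : ℝ) →L[ℝ] TangentSpace (𝓡 n) (Φ 0 z)) := by
      have h1 : HasMFDerivAt 𝓘(ℝ, ℝ) (𝓡 n) (fun t : ℝ => χ (Φ t z)) 0
          (0 : TangentSpace 𝓘(ℝ, ℝ) (0 : ℝ) →L[ℝ] TangentSpace (𝓡 n) (χ (Φ 0 z))) := by
        rw [hasMFDerivAt_iff_hasFDerivAt]
        have := hd0.hasFDerivAt
        rwa [ContinuousLinearMap.toSpanSingleton_zero] at this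
      have h2 : ContMDiffAt (𝓡 n) (𝓡 n) ∞ χ.symm (χ (Φ 0 z)) :=
        contMDiffAt_symm_of_mem_maximalAtlas hχ.mem (by rw [hΦ.zero, hχ.zero]; exact h0t)
      have h3 := (h2.mdifferentiableAt (by simp)).hasMFDerivAt.comp (0 : ℝ) h1
      rw [ContinuousLinearMap.comp_zero] at h3
      have h4 : (χ.symm ∘ fun t : ℝ => χ (Φ t z)) =ᶠ[𝓝 0] fun t => Φ t z := by
        have hc : Continuous (fun t : ℝ => Φ t z) := (curve_smooth hΦ z).continuous
        have h5 : ∀ᶠ t in 𝓝 (0 : ℝ), Φ t z ∈ χ.source :=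
          hc.continuousAt.eventually_mem (χ.open_source.mem_nhds (by rw [hΦ.zero]; exact hχ.src))
        filter_upwards [h5] with t ht
        exact χ.left_inv ht
      have h6 := h3.congr_of_eventuallyEq h4.symm
      exact h6
    have hall : ∀ t, HasMFDerivAt 𝓘(ℝ, ℝ) (𝓡 n) (fun t : ℝ => Φ t z) t
        (0 : TangentSpace 𝓘(ℝ, ℝ) t →L[ℝ] TangentSpace (𝓡 n) (Φ t z)) := by
      intro t
      have h1 : MDifferentiableAt (𝓡 n) (𝓡 n) (fun y : N => Φ t y) (Φ 0 z) :=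
        (time_smooth hΦ t).contMDiffAt.mdifferentiableAt (by simp)
      have h2 := h1.hasMFDerivAt.comp (0 : ℝ) hm0
      rw [ContinuousLinearMap.comp_zero] at h2
      have h3 := ((hasFDerivAt_id (𝕜 := ℝ) t).sub_const t).hasMFDerivAt
      have h4 : (fun s : ℝ => Φ s z) = ((fun y : N => Φ t y) ∘ fun s : ℝ => Φ s z) ∘
          fun s : ℝ => s - t := by
        funext s
        simp only [Function.comp_apply]
        rw [← hΦ.add]
        congr 1
        ring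
      have h5 : HasMFDerivAt 𝓘(ℝ, ℝ) (𝓡 n) ((fun y : N => Φ t y) ∘ fun s : ℝ => Φ s z) (t - t)
          (0 : TangentSpace 𝓘(ℝ, ℝ) (t - t) →L[ℝ]
            TangentSpace (𝓡 n) (((fun y : N => Φ t y) ∘ fun s : ℝ => Φ s z) (t - t))) := by
        have e : t - t = 0 := sub_self t
        rw [e]
        exact h2
      have h6 := HasMFDerivAt.comp (f := fun s : ℝ => s - t) t h5 h3
      rw [h4]
      exact h6.congr_mfderiv (by ext; rfl)
    have := curve_const hall t 0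
    rw [this, hΦ.zero]
  have hξpos : 0 < ‖ξ 0‖ := norm_pos_iff.2 hξ0
  have hlow : ∀ᶠ x : V n in 𝓝 0, ‖ξ 0‖ / 2 < ‖ξ x‖ :=
    hξC.continuousAt.norm.eventually (lt_mem_nhds (by linarith))
  obtain ⟨δ, hδ, hball⟩ := Metric.mem_nhds_iff.1 (inter_mem hT (hdiff.and hlow))
  have hmem : ∀ x : V n, ‖x‖ < δ → x ∈ ball (0 : V n) δ := by
    intro x hx
    rwa [mem_ball_zero_iff]
  refine ⟨ξ, ‖ξ 0‖ / 2, K + 1, δ, by positivity, by positivity, hδ, ?_, ?_⟩
  · intro y hy hyδ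
    have h1 := hball (hmem _ hyδ)
    exact ⟨hder y hy h1.2.1, h1.2.2.le⟩
  · intro x x' hx hx'
    have h1 := hLip.norm_sub_le (hball (hmem _ hx)).1 (hball (hmem _ hx')).1
    refine h1.trans ?_
    have := norm_nonneg (x - x')
    nlinarith

end Pool.Agent.N15.OT
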