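import Pool.Agent.N15.OT.Stm2
import Pool.Agent.N15.OT.FLD

/-!
# The vector fields of an exponential action in a chart (after FLD by helper491)
-/

set_option autoImplicit false

open scoped Manifold ContDiff Topology
open Filter Set Metric

universe u

namespace Pool.Agent.N15.OT

open Pool.Agent.H718R2.G Pool.Agent.W564.SC Pool.Agent.N813.CL

/-- The one-parameter groups of an exponential action are flows. -/
theorem sflow' {k n : ℕ} {N : Type u} [TopologicalSpace N] [ChartedSpace (V n) N]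
    {R : V k → N → N} (hR : ExpAction k n N R) (X : V k) :
    SFlow n N fun t y => R (t • X) y where
  smooth := by
    have h1 : ContMDiff (𝓘(ℝ, ℝ).prod (𝓡 n)) (𝓡 k) ∞ (fun q : ℝ × N => q.1 • X) := by
      have h2 : ContMDiff 𝓘(ℝ, ℝ) (𝓡 k) ∞ (fun t : ℝ => t • X) :=
        (contDiff_id.smul contDiff_const).contMDiff
      exact h2.comp contMDiff_fst
    exact hR.smooth.comp (h1.prodMk contMDiff_snd)
  zero := fun y => by rw [zero_smul, hR.zero]
  add := fun s t y => hR.line s t X y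

theorem fld2 : S_FLD2.{u} := by
  intro n k N _ _ _ _ _ R hR χ z hχ
  have h0t : (0 : V n) ∈ χ.target := hχ.ball (mem_closedBall_self zero_le_one)
  have hs0 : χ.symm 0 = z := by rw [← hχ.zero]; exact χ.left_inv hχ.src
  obtain ⟨f, hf⟩ : ∃ f : V k × V n → V n, f = fun p => χ (R p.1 (χ.symm p.2)) := ⟨_, rfl⟩
  have hfM : ContMDiffAt ((𝓡 k).prod (𝓡 n)) (𝓡 n) ∞ f ((0 : V k), (0 : V n)) := by
    have h1 : ContMDiffAt ((𝓡 k).prod (𝓡 n)) (𝓡 n) ∞ (fun p : V k × V n => χ.symm p.2)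
        ((0 : V k), (0 : V n)) :=
      ContMDiffAt.comp (I' := 𝓡 n) ((0 : V k), (0 : V n))
        (contMDiffAt_symm_of_mem_maximalAtlas hχ.mem h0t) contMDiffAt_snd
    have h2 : ContMDiffAt ((𝓡 k).prod (𝓡 n)) ((𝓡 k).prod (𝓡 n)) ∞
        (fun p : V k × V n => (p.1, χ.symm p.2)) ((0 : V k), (0 : V n)) :=
      contMDiffAt_fst.prodMk h1
    have h3 : ContMDiffAt ((𝓡 k).prod (𝓡 n)) (𝓡 n) ∞
        (fun p : V k × V n => R p.1 (χ.symm p.2)) ((0 : V k), (0 : V n)) :=
      ContMDiffAt.comp (I' := (𝓡 k).prod (𝓡 n)) ((0 : V k), (0 : V n))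
        (hR.smooth.contMDiffAt) h2
    rw [hf]
    refine ContMDiffAt.comp (I' := 𝓡 n) ((0 : V k), (0 : V n)) (g := χ)
      (contMDiffAt_of_mem_maximalAtlas hχ.mem ?_) h3
    show R 0 (χ.symm 0) ∈ χ.source
    rw [hR.zero, hs0]
    exact hχ.src
  have hfC : ContDiffAt ℝ ∞ f ((0 : V k), (0 : V n)) := by
    rw [← modelWithCornersSelf_prod, chartedSpaceSelf_prod] at hfM
    exact contMDiffAt_iff_contDiffAt.1 hfM
  have hf2 : ContDiffAt ℝ ((2 : ℕ) : WithTop ℕ∞) f ((0 : V k), (0 : V n)) :=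
    hfC.of_le (WithTop.coe_le_coe.2 le_top)
  obtain ⟨A, hA⟩ : ∃ A : V n → V k →L[ℝ] V n,
      A = fun x => (fderiv ℝ f (0, x)).comp (ContinuousLinearMap.inl ℝ (V k) (V n)) := ⟨_, rfl⟩
  have hAC : ContDiffAt ℝ 1 A 0 := by
    have h1 : ContDiffAt ℝ 1 (fderiv ℝ f) ((0 : V k), (0 : V n)) :=
      hf2.fderiv_right (by norm_cast)
    have h2 : ContDiffAt ℝ 1 (fun x : V n => fderiv ℝ f (0, x)) 0 :=
      ContDiffAt.comp (0 : V n) (g := fderiv ℝ f) (f := fun x : V n => ((0 : V k), x)) h1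
        (contDiffAt_const.prodMk contDiffAt_id)
    rw [hA]
    exact h2.clm_comp contDiffAt_const
  obtain ⟨K, T, hT, hLip⟩ := hAC.exists_lipschitzOnWith
  have hdiff : ∀ᶠ x : V n in 𝓝 0, DifferentiableAt ℝ f ((0 : V k), x) := by
    have h1 : ∀ᶠ p in 𝓝 ((0 : V k), (0 : V n)), ContDiffAt ℝ 1 f p :=
      (hfC.of_le (m := 1) (by exact_mod_cast le_top)).eventually (by simp)
    have h2 : Tendsto (fun x : V n => ((0 : V k), x)) (𝓝 0) (𝓝 ((0 : V k), (0 : V n))) :=
      (continuous_const.prodMk continuous_id).continuousAt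
    filter_upwards [h2.eventually h1] with x hx
    exact hx.differentiableAt (by norm_num)
  have hder : ∀ X : V k, ∀ y ∈ χ.source, DifferentiableAt ℝ f ((0 : V k), χ y) →
      HasDerivAt (fun t : ℝ => χ (R (t • X) y)) (A (χ y) X) 0 := by
    intro X y hy hd
    have h1 : HasDerivAt (fun t : ℝ => (t • X, χ y)) (X, (0 : V n)) 0 := by
      have h0 : HasDerivAt (fun t : ℝ => t • X) X 0 := by
        simpa using (hasDerivAt_id (0 : ℝ)).smul_const X
      exact h0.prodMk (hasDerivAt_const (0 : ℝ) (χ y))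
    have hd' : HasFDerivAt f (fderiv ℝ f ((0 : V k), χ y)) ((0 : ℝ) • X, χ y) := by
      rw [zero_smul]
      exact hd.hasFDerivAt
    have h2 := hd'.comp_hasDerivAt (0 : ℝ) h1
    have h3 : (f ∘ fun t : ℝ => (t • X, χ y)) = fun t : ℝ => χ (R (t • X) y) := by
      funext t
      simp only [hf, Function.comp_apply]
      rw [χ.left_inv hy]
    rw [h3] at h2
    rw [hA]
    exact h2
  obtain ⟨δ, hδ, hball⟩ := Metric.mem_nhds_iff.1 (inter_mem hT hdiff)
  have hmem : ∀ x : V n, ‖x‖ < δ → x ∈ ball (0 : V n) δ := by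
    intro x hx
    rwa [mem_ball_zero_iff]
  refine ⟨A, K + 1, δ, by positivity, hδ, ?_, ?_, ?_⟩
  · intro X y hy hyδ
    exact hder X y hy (hball (hmem _ hyδ)).2
  · intro x x' hx hx'
    have h1 := hLip.norm_sub_le (hball (hmem _ hx)).1 (hball (hmem _ hx')).1
    refine h1.trans ?_
    have := norm_nonneg (x - x')
    nlinarith
  · intro X hX t
    by_contra hcon
    obtain ⟨ξ, c, L, δ', hc, hL, hδ', hξ, -⟩ := fld n N _ (sflow' hR X) χ z hχ ⟨t, hcon⟩
    obtain ⟨h1, h2⟩ := hξ z hχ.src (by rw [hχ.zero, norm_zero]; exact hδ')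
    have h3 := hder X z hχ.src (by rw [hχ.zero]; exact hdiff.self_of_nhds)
    have h4 := h1.unique h3
    rw [h4, hχ.zero, hX, norm_zero] at h2
    linarith

end Pool.Agent.N15.OT
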