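import Pool.Agent.N15.OT.Main
import Pool.Agent.N15.OT.DefsF
import Pool.Agent.N15.OT.FLD
import Pool.Agent.N15.OT.FLD2
import Pool.Agent.N813.EM.MainF
import Pool.Agent.N813.CL.MainF
import Pool.Agent.N813.FL.MainF

/-!
# `Ω`-stable diffeomorphisms and compact group extensions: assembly
-/

set_option autoImplicit false
set_option linter.unusedSectionVars false

open scoped Manifold ContDiff Topology
open MeasureTheory Filter Set Metric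

universe u v

namespace Pool.Agent.N15.OT

open Pool.Agent.H718R2.G Pool.Agent.W564.SC Pool.Agent.N813.CL.F Pool.Agent.N813.FL.F
  Pool.Agent.N813.EM Pool.Agent.TH80.OMS

section

variable {k n : ℕ} {N : Type u} [TopologicalSpace N] [T2Space N] [CompactSpace N]
  [ChartedSpace (V n) N] [IsManifold (𝓡 n) ∞ N]

theorem exists_chart (z : N) : ∃ χ : OpenPartialHomeomorph N (V n), GoodChart n N χ z :=
  Pool.Agent.W699.SC.gc.{u} n N z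

theorem rigid {r : ℕ∞} (hr : 1 ≤ r) {F : DiffM n N r} (hF : OmegaStable n N r F)
    {R : V k → N → N} (hR : ExpAct k n N R) {K : Set N} (hK : Inv F R K)
    {χ : OpenPartialHomeomorph N (V n)} {z : N} (hχ : GoodChart n N χ z)
    (hret : ∀ {H : V k → DiffM n N r}, (∀ X y, H X y = F (R X y)) →
      FamRet (fun X => (H X : N → N)) χ K) : Rigid F R K z := by
  obtain ⟨hR1, hR2, hR3⟩ := hR
  obtain ⟨hK1, hK2⟩ := hK
  exact trivial_of_ret lin fld fld2 hr hF ⟨hR1, hR2, hR3⟩ hχ (fun y hy => (hK2 y hy).1)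
    (fun X y hy => ((hK2 y hy).2 X).1) (fun X y hy => ((hK2 y hy).2 X).2) hret

/-- mixing measures -/
theorem mix_rigid {r : ℕ∞} (hr : 1 ≤ r) {F : DiffM n N r} (hF : OmegaStable n N r F)
    {R : V k → N → N} {K : Set N} {z : N} (h : MixOver.{u, v} k n N F R K z) : Rigid F R K z := by
  obtain ⟨B, _, _, _, _, g, μ, π, χ, ⟨hR1, hR2, hR3⟩, ⟨hK1, hK2⟩, ⟨hq1, hq2, hq3, c, hq4⟩,
    hπ, hz, hχ, hup, hlow, hfin, hbl, hmix⟩ := h
  refine rigid hr hF ⟨hR1, hR2, hR3⟩ ⟨hK1, hK2⟩ hχ fun hH => ?_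
  exact em_ret ⟨hR1, hR2, hR3⟩ ⟨hK1, fun y hy => (hK2 y hy).1,
    fun X y hy => ((hK2 y hy).2 X).1, fun X y hy => ((hK2 y hy).2 X).2, hq1, hq2, hq3, ⟨c, hq4⟩,
    hπ⟩ hz hχ hup hlow (polyClose g hfin hbl hmix) hH

/-- mixing measures on the manifold -/
theorem mix_per {N : Type u} [MetricSpace N] [CompactSpace N] [MeasurableSpace N]
    [BorelSpace N] [ChartedSpace (V n) N] [IsManifold (𝓡 n) ∞ N] {r : ℕ∞} (hr : 1 ≤ r)
    {F : DiffM n N r} (hF : OmegaStable n N r F) (hN : Pool.Agent.Y368.CL.ChartLip n N)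
    {μ : Measure N} {z : N} (h : MixMeas F μ z) : z ∈ closure (Per F) := by
  obtain ⟨R, K, B, i1, i2, i3, i4, g, μ', π, χ, h⟩ := mixHyp FIN.t BIL.t hN hr F h
  have h1 : Rigid F R K z := mix_rigid hr hF ⟨B, i1, i2, i3, i4, g, μ', π, χ, h⟩
  refine h1.2.2.1 fun X y _ => ?_
  rw [Subsingleton.elim X 0]
  exact h.1.2.1 y

/-- hyperbolic along toral orbits -/
theorem tor_rigid {d : ℕ} (hd : 1 ≤ d) {r : ℕ∞} (hr : 1 ≤ r) {F : DiffM n N r}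
    (hF : OmegaStable n N r F) {R : V k → N → N} {K : Set N} {z : N}
    (h : TorOver.{u, v} k d n N F R K z) : Rigid F R K z := by
  obtain ⟨B, _, _, g, π, ⟨hR1, hR2, hR3⟩, ⟨hK1, hK2⟩, ⟨hq1, hq2, hq3, c, hq4⟩, hq5, hz,
    S, A, ⟨⟨hS1, hS2, hS3⟩, hS4, hS5⟩, heq, ⟨P, ⟨hP1, hP2⟩, hP3, C, μ, hC, hμ0, hμ1, hyp⟩, hnw⟩ := h
  obtain ⟨χ, hχ⟩ := exists_chart (n := n) z
  refine rigid hr hF ⟨hR1, hR2, hR3⟩ ⟨hK1, hK2⟩ hχ fun hH => ?_
  refine cl_ret ⟨hR1, hR2, hR3⟩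
    (K := K) (π := π) (g := g) ⟨hK1, fun y hy => (hK2 y hy).1, fun X y hy => ((hK2 y hy).2 X).1,
      fun X y hy => ((hK2 y hy).2 X).2, hq1, hq2, hq3, ⟨c, hq4⟩, hq5⟩ hz hχ
    (Pool.Agent.N813.CL.dichotomy hd g (S := S) (A := A) (P := P) ⟨hS1, hS2, hS3, hS4, hS5⟩
      ⟨heq, hP1, hP2, hP3, C, μ, hC, hμ0, hμ1, fun n b v => ?_⟩ hnw) hH
  have := hyp n b v
  rw [coc_eq] at this
  exact this

/-- mixing maps with periodic shadowing in the fibres -/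
theorem map_rigid {r : ℕ∞} (hr : 1 ≤ r) {F : DiffM n N r}
    (hF : OmegaStable n N r F) {R : V k → N → N} {K : Set N} {z : N}
    (h : MapOver.{u, v} k n N F R K z) : Rigid F R K z := by
  obtain ⟨X, Y, _, _, _, _, f, τ, h, π, ⟨hR1, hR2, hR3⟩, ⟨hK1, hK2⟩,
    ⟨hq1, hq2, hq3, c, hq4⟩, ⟨h0, hF'⟩, ⟨hs, hm, _⟩, hz, hx⟩ := h
  obtain ⟨χ, hχ⟩ := exists_chart (n := n) z
  refine rigid hr hF ⟨hR1, hR2, hR3⟩ ⟨hK1, hK2⟩ hχ fun hH => ?_
  exact cl_ret ⟨hR1, hR2, hR3⟩ (K := K) (π := π) (g := fun q => (f q.1, h^[τ q.1] q.2))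
    ⟨hK1, fun y hy => (hK2 y hy).1, fun X y hy => ((hK2 y hy).2 X).1,
      fun X y hy => ((hK2 y hy).2 X).2, hq1, hq2, hq3, ⟨c, hq4⟩, hF'⟩ hz hχ
    (Pool.Agent.N813.FL.dichotomyn h hs hm f h0 (fun _ _ => rfl) (π z).2 hx) hH

/-- A flow with periodic shadowing and more than one orbit, which is chain transitive, is not
trivial. -/
theorem not_all_fixed {Y : Type v} [MetricSpace Y] {φ : ℝ → Y → Y}
    (h : Pool.Agent.N813.FL.HypFlow φ) (y₀ : Y) : ¬ ∀ y t, φ t y = y := by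
  intro hfix
  obtain ⟨hfl, hsh, hch, hmore⟩ := h
  obtain ⟨y₁, hy₁⟩ := hmore y₀
  have hne : 0 < dist y₀ y₁ := by
    apply dist_pos.2
    intro he
    exact hy₁ 0 (by rw [hfix, he])
  obtain ⟨δ, hδ, H⟩ := hsh (dist y₀ y₁ / 2) (half_pos hne)
  obtain ⟨n₁, t₁, w₁, hn₁, ha₁, hb₁, hc₁⟩ := hch δ hδ y₀ y₁
  obtain ⟨n₂, t₂, w₂, hn₂, ha₂, hb₂, hc₂⟩ := hch δ hδ y₁ y₀
  obtain ⟨t, w, hw, hw0, -, -, hwj, -⟩ := Pool.Agent.N813.FL.concat hc₁ hc₂ (by rw [hb₁, ha₂])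
  obtain ⟨p, s, -, -, hd⟩ := H (n₁ + n₂) t w (by omega) (by rw [hwj, hb₂, hw0, ha₁]) hw
  have h1 := hd 0 (by omega)
  have h2 := hd n₁ (by omega)
  rw [hfix, hw0, ha₁] at h1
  have h3 := hwj 0
  rw [add_zero, ha₂] at h3
  rw [hfix, h3] at h2
  have h4 := dist_triangle_left y₀ y₁ p
  linarith

/-- hyperbolic flows in the fibres -/
theorem no_flow {r : ℕ∞} (hr : 1 ≤ r) {F : DiffM n N r}
    (hF : OmegaStable n N r F) (z : N) : ¬ FlowHyp.{u, v} k n N F z := by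
  rintro ⟨R, Φ, K, X, Y, _, _, _, _, f, τ, φ, π, ⟨hR1, hR2, hR3⟩, ⟨hΦ1, hΦ2, hΦ3⟩, ⟨hK1, hK2⟩,
    ⟨hq1, hq2, hq3, c, hq4⟩, ⟨hτ, h0, hF'⟩, hcov, hφ, hz, hx⟩
  have hfl : Pool.Agent.N813.FL.FlowOn F R K π Φ (fun t q => (q.1, φ t q.2)) :=
    ⟨fun s y hy => (hcov s y hy).1, fun s y hy => (hcov s y hy).2.1,
      fun s X y hy => (hcov s y hy).2.2.1 X, fun s y hy => (hcov s y hy).2.2.2⟩
  have hq : Pool.Agent.N813.CL.IsQuot F R K (fun q => (f q.1, φ (τ q.1) q.2)) π :=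
    ⟨hK1, fun y hy => (hK2 y hy).1, fun X y hy => ((hK2 y hy).2 X).1,
      fun X y hy => ((hK2 y hy).2 X).2, hq1, hq2, hq3, ⟨c, hq4⟩, hF'⟩
  -- all points over `(π z).1` are fixed by the flow
  have key : ∀ z' ∈ K, (π z').1 = (π z).1 → ∀ t, Φ t z' = z' := by
    intro z' hz' hzz t
    obtain ⟨χ, hχ⟩ := exists_chart (n := n) z'
    refine flow_trivial lin fld hr hF ⟨hR1, hR2, hR3⟩ ⟨hΦ1, hΦ2, hΦ3⟩ hχ
      (fun y hy => (hK2 y hy).1) (fun X y hy => ((hK2 y hy).2 X).1)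
      (fun X y hy => ((hK2 y hy).2 X).2) hfl (fun hH => ?_) t
    exact fl_ret ⟨hR1, hR2, hR3⟩ ⟨hΦ1, hΦ2, hΦ3⟩ hq hfl hz' hχ
      (Pool.Agent.N813.FL.dichotomy hφ f hτ h0 (fun _ _ => rfl) (fun _ _ _ => rfl) (π z').2
        (by rw [hzz]; exact hx)) hH
  -- all points of `Y` are fixed, contradicting periodic shadowing and chain transitivity
  have h4 : ∀ (y : Y) (t : ℝ), φ t y = y := by
    intro y t
    obtain ⟨z', hz', hzy⟩ := hq2 ((π z).1, y)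
    have h3 := (hcov t z' hz').2.2.2
    rw [key z' hz' (by rw [hzy]) t, hzy] at h3
    exact (congrArg Prod.snd h3).symm
  exact not_all_fixed hφ (π z).2 h4

end

end Pool.Agent.N15.OT
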