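import Pool.Agent.W564.SC.Defs
import Pool.Agent.TH80.OMS.Defs
import Pool.Agent.TH80.OMS.SymDefs

/-!
# `Ω`-stable diffeomorphisms and families of perturbations: definitions
-/

set_option autoImplicit false

open scoped Manifold ContDiff Topology
open Filter Set Metric

universe u

namespace Pool.Agent.N15.OT

open Pool.Agent.H718R2.G Pool.Agent.W564.SC

/-- A smooth flow on `N`. -/
structure SFlow (n : ℕ) (N : Type u) [TopologicalSpace N] [ChartedSpace (V n) N]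
    (Φ : ℝ → N → N) : Prop where
  smooth : ContMDiff (𝓘(ℝ, ℝ).prod (𝓡 n)) (𝓡 n) ∞ (fun q : ℝ × N => Φ q.1 q.2)
  zero : ∀ y, Φ 0 y = y
  add : ∀ s t y, Φ (s + t) y = Φ s (Φ t y)

/-- Near the centre of the chart `χ` there are points of `K` whose orbits under maps `H s` of the
family, `s` small, nearly close up, without intermediate returns. -/
def FamRet {n : ℕ} {N : Type u} [TopologicalSpace N] {P : Type} [NormedAddCommGroup P]
    (H : P → N → N) (χ : OpenPartialHomeomorph N (V n)) (K : Set N) : Prop :=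
  ∀ (k : ℕ) (κ : ℝ), 0 < κ → ∃ (s : P) (z' : N) (ρ : ℝ) (m : ℕ), ‖s‖ < κ ∧ z' ∈ K ∧
    z' ∈ χ.source ∧ ‖χ z'‖ < κ ∧ 0 < ρ ∧ ρ < κ ∧ 1 ≤ m ∧ (H s)^[m] z' ∈ χ.source ∧
    ‖χ ((H s)^[m] z') - χ z'‖ < κ * ρ ^ k ∧
    ∀ i, 0 < i → i < m → (H s)^[i] z' ∈ χ.source → 2 * ρ ≤ ‖χ ((H s)^[i] z') - χ z'‖

end Pool.Agent.N15.OT
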