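import Pool.Agent.N15.OT.Stm
import Pool.Agent.R773.FC.Loc
import Pool.Agent.Y504.CO.Plug

/-!
# Closing with an eigenvalue `1`
-/

set_option autoImplicit false
set_option linter.unusedSectionVars false

open scoped Manifold ContDiff Topology
open Filter Set Metric

universe u

namespace Pool.Agent.N15.OT

open Pool.Agent.H718R2.G Pool.Agent.W564.SC Pool.Agent.TH80.OMS Pool.Agent.R773.FC

section

variable {n : ℕ} {N : Type u} [TopologicalSpace N] [T2Space N] [CompactSpace N]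
  [ChartedSpace (V n) N] [IsManifold (𝓡 n) ∞ N]

/-- `Θ` is the identity near the points outside of the support. -/
lemma fix_nhds {χ : OpenPartialHomeomorph N (V n)} {z : N} (hχ : GoodChart n N χ z) {v : V n}
    {ρ₁ ρ : ℝ} (h1 : ρ₁ < ρ) (h2 : ‖v‖ + 2 * ρ₁ ≤ 1) {Θ : N → N}
    (hfix : ∀ y, (y ∈ χ.source → 2 * ρ₁ ≤ ‖χ y - v‖) → Θ y = y) {p : N}
    (hp : p ∈ χ.source → 2 * ρ ≤ ‖χ p - v‖) : ∀ᶠ y in 𝓝 p, Θ y = y := by
  by_cases hps : p ∈ χ.source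
  · have hc : ContinuousAt (fun y => ‖χ y - v‖) p :=
      ((χ.continuousAt hps).sub continuousAt_const).norm
    have h3 : ∀ᶠ y in 𝓝 p, 2 * ρ₁ < ‖χ y - v‖ := by
      apply hc.eventually (lt_mem_nhds _)
      have := hp hps
      linarith
    filter_upwards [h3] with y hy
    exact hfix y fun _ => hy.le
  · set A : Set N := χ.symm '' closedBall v (2 * ρ₁) with hA
    have hsub : closedBall v (2 * ρ₁) ⊆ χ.target := by
      refine subset_trans ?_ hχ.ball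
      intro x hx
      rw [mem_closedBall_zero_iff]
      rw [mem_closedBall, dist_eq_norm] at hx
      have := norm_le_norm_add_norm_sub' x v
      linarith
    have hAc : IsCompact A := (isCompact_closedBall v (2 * ρ₁)).image_of_continuousOn
      (χ.continuousOn_symm.mono hsub)
    have hpA : p ∉ A := by
      rintro ⟨x, hx, rfl⟩
      exact hps (χ.map_target (hsub hx))
    filter_upwards [hAc.isClosed.isOpen_compl.mem_nhds hpA] with y hy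
    apply hfix
    intro hys
    by_contra hcon
    push Not at hcon
    apply hy
    refine ⟨χ y, ?_, χ.left_inv hys⟩
    rw [mem_closedBall, dist_eq_norm]
    exact hcon.le

/-- the rank one correction -/
lemma rank_one {n : ℕ} {c L : ℝ} (hc : 0 < c) {e e' w : V n} (he : c ≤ ‖e‖)
    (h : ‖e' - e‖ ≤ L * ‖w‖) :
    ∃ E : V n →L[ℝ] V n, E e = e' - e ∧ ‖E‖ ≤ L * ‖w‖ / c := by
  have he0 : 0 < ‖e‖ := hc.trans_le he
  refine ⟨(innerSL ℝ e).smulRight ((1 / ‖e‖ ^ 2) • (e' - e)), ?_, ?_⟩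
  · rw [ContinuousLinearMap.smulRight_apply, innerSL_apply_apply, real_inner_self_eq_norm_sq,
      smul_smul]
    field_simp
    rw [one_smul]
  · rw [ContinuousLinearMap.norm_smulRight_apply, innerSL_apply_norm, norm_smul, norm_div, norm_one,
      norm_pow, norm_norm]
    have h1 : ‖e‖ * (1 / ‖e‖ ^ 2 * ‖e' - e‖) = ‖e' - e‖ / ‖e‖ := by
      field_simp
    rw [h1]
    have h0 : 0 ≤ L * ‖w‖ := (norm_nonneg _).trans h
    exact div_le_div₀ h0 h hc he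

theorem eig_core (hLIN : S_LIN) {r : ℕ∞} (hr : 1 ≤ r) {P : Type}
    [NormedAddCommGroup P] [NormedSpace ℝ P] {H : P → DiffM n N r} (hfam : IsFam n N r H)
    {χ : OpenPartialHomeomorph N (V n)} {z : N} (hχ : GoodChart n N χ z) {ι : Type}
    {Ψ : ι → ℝ → N → N} (hΨ0 : ∀ j y, Ψ j 0 y = y) (hΨc : ∀ j y, Continuous fun t => Ψ j t y)
    {ζ : ι → V n → V n} {c L δ : ℝ} (hc : 0 < c) (hL : 0 < L) (hδ : 0 < δ)
    (hζ : ∀ j, ∀ y ∈ χ.source, ‖χ y‖ < δ →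
      HasDerivAt (fun t => χ (Ψ j t y)) (ζ j (χ y)) 0 ∧ c ≤ ‖ζ j (χ y)‖)
    (hlipj : ∀ j, ∀ x x' : V n, ‖x‖ < δ → ‖x'‖ < δ → ‖ζ j x - ζ j x'‖ ≤ L * ‖x - x'‖)
    {K : Set N} (hKH : ∀ s, ∀ y ∈ K, H s y ∈ K) (j : P → ι)
    (hcommj : ∀ s t, ∀ y ∈ K, H s (Ψ (j s) t y) = Ψ (j s) t (H s y))
    (hret : FamRet (fun s => (H s : N → N)) χ K)
    {U : Set (DiffM n N r)} (hU : IsOpen[strongTop n N r] U) (hFU : H 0 ∈ U) :
    ∃ G ∈ U, ∃ (z' : N) (m : ℕ) (e : V n), 1 ≤ m ∧ z' ∈ χ.source ∧ G^[m] z' = z' ∧ e ≠ 0 ∧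
      fderiv ℝ (fun x => χ (G^[m] (χ.symm x))) (χ z') e = e := by
  obtain ⟨k, hk1, hkr, κ₀, hκ₀, hN⟩ := t_NBHD n N r hr P H hfam χ z hχ U hU hFU
  obtain ⟨C, hC, hB⟩ := hLIN n k
  obtain ⟨M, hM⟩ : ∃ M : ℝ, M = 1 + 2 * L / c := ⟨_, rfl⟩
  have hM0 : 0 < M := by rw [hM]; positivity
  obtain ⟨C', hC'⟩ : ∃ C' : ℝ, C' = C * M * (4 / 3) ^ k := ⟨_, rfl⟩
  have hC'0 : 0 < C' := by rw [hC']; positivity
  set κ := min (min (min κ₀ (1 / 16)) (min (κ₀ / C') (1 / (2 * C')))) (δ / 4) with hκ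
  have k0 : 0 < κ := by positivity
  have k1 : κ ≤ κ₀ := ((min_le_left _ _).trans (min_le_left _ _)).trans (min_le_left _ _)
  have k2 : κ ≤ 1 / 16 := ((min_le_left _ _).trans (min_le_left _ _)).trans (min_le_right _ _)
  have k3 : κ ≤ κ₀ / C' := ((min_le_left _ _).trans (min_le_right _ _)).trans (min_le_left _ _)
  have k4 : κ ≤ 1 / (2 * C') :=
    ((min_le_left _ _).trans (min_le_right _ _)).trans (min_le_right _ _)
  have k5 : κ ≤ δ / 4 := min_le_right _ _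
  obtain ⟨s, z', ρ, m, hs, hzK, hz', hz'n, hρ, hρκ, hm, hsrc, hw, hi⟩ := hret k κ k0
  obtain ⟨Φ, hΦdef⟩ : ∃ Φ : ℝ → N → N, Φ = Ψ (j s) := ⟨_, rfl⟩
  obtain ⟨ξ, hξdef⟩ : ∃ ξ : V n → V n, ξ = ζ (j s) := ⟨_, rfl⟩
  have hΦ0 : ∀ y, Φ 0 y = y := by rw [hΦdef]; exact hΨ0 (j s)
  have hΦc : ∀ y, Continuous fun t => Φ t y := by rw [hΦdef]; exact hΨc (j s)
  have hξ : ∀ y ∈ χ.source, ‖χ y‖ < δ →
      HasDerivAt (fun t => χ (Φ t y)) (ξ (χ y)) 0 ∧ c ≤ ‖ξ (χ y)‖ := by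
    rw [hΦdef, hξdef]; exact hζ (j s)
  have hlip : ∀ x x' : V n, ‖x‖ < δ → ‖x'‖ < δ → ‖ξ x - ξ x'‖ ≤ L * ‖x - x'‖ := by
    rw [hξdef]; exact hlipj (j s)
  have hcomm : ∀ t, ∀ y ∈ K, H s (Φ t y) = Φ t (H s y) := by
    rw [hΦdef]; exact hcommj s
  obtain ⟨v, hv⟩ : ∃ v : V n, v = χ z' := ⟨_, rfl⟩
  obtain ⟨q, hq⟩ : ∃ q : N, q = (H s)^[m] z' := ⟨_, rfl⟩
  obtain ⟨w, hwdef⟩ : ∃ w : V n, w = χ q - v := ⟨_, rfl⟩
  have hsrc' : q ∈ χ.source := by rw [hq]; exact hsrc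
  have hw' : ‖w‖ < κ * ρ ^ k := by rw [hwdef, hq, hv]; exact hw
  have hi' : ∀ i, 0 < i → i < m → (H s)^[i] z' ∈ χ.source → 2 * ρ ≤ ‖χ ((H s)^[i] z') - v‖ := by
    rw [hv]; exact hi
  have hρk : 0 < ρ ^ k := pow_pos hρ k
  have hρ1 : ρ ≤ 1 := by linarith
  have hρk' : ρ ^ k ≤ ρ := by
    calc ρ ^ k ≤ ρ ^ 1 := pow_le_pow_of_le_one hρ.le hρ1 hk1
      _ = ρ := pow_one ρ
  have hwρ : ‖w‖ ≤ ρ / 16 := by
    refine hw'.le.trans ?_
    calc κ * ρ ^ k ≤ 1 / 16 * ρ := by gcongr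
      _ = ρ / 16 := by ring
  have hw1 : ‖w‖ ≤ 1 := by linarith
  obtain ⟨ρ₁, hρ₁⟩ : ∃ ρ₁ : ℝ, ρ₁ = 3 / 4 * ρ := ⟨_, rfl⟩
  have hρ₁0 : 0 < ρ₁ := by rw [hρ₁]; positivity
  have hvn : ‖v‖ < κ := by rw [hv]; exact hz'n
  have hqn : ‖χ q‖ < δ := by
    have h1 : χ q = v + w := by rw [hwdef]; abel
    rw [h1]
    refine (norm_add_le _ _).trans_lt ?_
    linarith
  have hvδ : ‖v‖ < δ := by linarith
  obtain ⟨hdw, hcw⟩ := hξ q hsrc' hqn
  obtain ⟨hdz, hcz⟩ := hξ z' hz' (by rw [← hv]; exact hvδ)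
  rw [← hv] at hdz hcz
  have hlip' : ‖ξ v - ξ (χ q)‖ ≤ L * ‖w‖ := by
    have := hlip v (χ q) hvδ hqn
    rw [hwdef, norm_sub_rev (χ q) v]
    exact this
  obtain ⟨E, hE, hEn⟩ := rank_one hc hcw hlip'
  obtain ⟨a, ha⟩ : ∃ a : V n, a = -w - E w := ⟨_, rfl⟩
  have hsum : ‖a‖ + ρ₁ * ‖E‖ ≤ M * ‖w‖ := by
    have h1 : ‖a‖ ≤ ‖w‖ + ‖E‖ * ‖w‖ := by
      rw [ha]
      refine (norm_sub_le _ _).trans ?_
      rw [norm_neg]
      gcongr
      exact E.le_opNorm w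
    have h2 : ‖E‖ * ‖w‖ ≤ ‖E‖ * 1 := by gcongr
    have h3 : ρ₁ * ‖E‖ ≤ 1 * ‖E‖ := by
      gcongr
      rw [hρ₁]; linarith
    have h4 : M * ‖w‖ = ‖w‖ + 2 * (L * ‖w‖ / c) := by
      rw [hM]; ring
    rw [h4]
    linarith
  obtain ⟨u, hu, huaff, hu0⟩ := hB ρ₁ hρ₁0 (by rw [hρ₁]; linarith) a E
  have hqk : ‖w‖ / ρ ^ k ≤ κ := by
    rw [div_le_iff₀ hρk]; exact hw'.le
  have hbd : C * ((‖a‖ + ρ₁ * ‖E‖) / ρ₁ ^ k) ≤ C' * κ := by
    calc C * ((‖a‖ + ρ₁ * ‖E‖) / ρ₁ ^ k) ≤ C * (M * ‖w‖ / ρ₁ ^ k) := by gcongr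
      _ = C' * (‖w‖ / ρ ^ k) := by
          rw [hC', hρ₁, mul_pow]
          have h34 : (3 / 4 : ℝ) ^ k * (4 / 3) ^ k = 1 := by
            rw [← mul_pow]; norm_num
          have h34' : (3 / 4 : ℝ) ^ k ≠ 0 := by positivity
          have h5 : (4 / 3 : ℝ) ^ k = 1 / (3 / 4 : ℝ) ^ k := by
            rw [eq_div_iff h34', mul_comm]; exact h34
          rw [h5]
          field_simp
      _ ≤ C' * κ := by gcongr
  have hc1 : C * ((‖a‖ + ρ₁ * ‖E‖) / ρ₁ ^ k) ≤ κ₀ := by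
    refine hbd.trans ?_
    calc C' * κ ≤ C' * (κ₀ / C') := by gcongr
      _ = κ₀ := by field_simp
  have hc2 : C * ((‖a‖ + ρ₁ * ‖E‖) / ρ₁ ^ k) ≤ 1 / 2 := by
    refine hbd.trans ?_
    calc C' * κ ≤ C' * (1 / (2 * C')) := by gcongr
      _ = 1 / 2 := by field_simp
  have hvρ : ‖v‖ + 2 * ρ₁ ≤ 1 / 2 := by rw [hρ₁]; linarith
  have hsh := small_shift (v := v) hu hu0 hvρ
  obtain ⟨Θ, hΘ⟩ := Pool.Agent.W428.SC.push n N r χ z hχ (fun x => u (x - v))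
    (small_mono hsh hk1 hc2)
  have hGU := hN s (fun x => u (x - v)) Θ (hs.trans_le k1)
    (small_mono hsh le_rfl hc1) hΘ
  have hG : ∀ y, ((H s).trans Θ) y = Θ (H s y) := fun y => rfl
  obtain ⟨G, hGdef⟩ : ∃ G : DiffM n N r, G = (H s).trans Θ := ⟨_, rfl⟩
  rw [← hGdef] at hGU hG
  have hfix : ∀ y, (y ∈ χ.source → 2 * ρ₁ ≤ ‖χ y - v‖) → Θ y = y := by
    intro y hy
    by_cases hys : y ∈ χ.source
    · obtain ⟨a', b'⟩ := hΘ.1 _ hys
      have b1 : χ (Θ y) = χ y + u (χ y - v) := b'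
      rw [hu0 _ (hy hys), add_zero] at b1
      exact χ.injOn a' hys b1
    · exact hΘ.2 _ hys
  have hHc : ∀ i : ℕ, Continuous ((H s)^[i]) := fun i => (H s).continuous.iterate i
  -- near `z'` the iterates agree
  have key : ∀ i, i < m → ∀ᶠ y in 𝓝 z', G^[i] y = (H s)^[i] y := by
    intro i
    induction i with
    | zero => intro _; exact Eventually.of_forall fun y => rfl
    | succ i ih =>
      intro him
      have h1 := fix_nhds hχ (v := v) (ρ₁ := ρ₁) (ρ := ρ) (by rw [hρ₁]; linarith)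
        (by linarith) hfix (hi' (i + 1) (Nat.succ_pos i) him)
      have h2 := (hHc (i + 1)).continuousAt.eventually h1
      filter_upwards [ih (by omega), h2] with y hy1 hy2
      rw [Function.iterate_succ_apply', hy1, hG, ← Function.iterate_succ_apply' (H s)]
      exact hy2
  obtain ⟨m', hm'⟩ : ∃ m', m = m' + 1 := ⟨m - 1, by omega⟩
  have keym : ∀ᶠ y in 𝓝 z', G^[m] y = Θ ((H s)^[m] y) := by
    filter_upwards [key m' (by omega)] with y hy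
    rw [hm', Function.iterate_succ_apply', hy, hG, ← Function.iterate_succ_apply' (H s)]
  -- near `q` the push is affine
  have haff : ∀ᶠ p in 𝓝 q, χ (Θ p) = χ p + (a + E (χ p - v)) := by
    have hcq : ContinuousAt (fun p => ‖χ p - v‖) q :=
      ((χ.continuousAt hsrc').sub continuousAt_const).norm
    have h3 : ∀ᶠ p in 𝓝 q, ‖χ p - v‖ < ρ₁ := by
      apply hcq.eventually (gt_mem_nhds _)
      show ‖χ q - v‖ < ρ₁
      rw [← hwdef, hρ₁]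
      linarith
    filter_upwards [h3, χ.open_source.mem_nhds hsrc'] with p hp1 hp2
    obtain ⟨-, b'⟩ := hΘ.1 _ hp2
    have b1 : χ (Θ p) = χ p + u (χ p - v) := b'
    rw [b1, huaff _ hp1.le]
  have hGz : G^[m] z' = z' := by
    rw [keym.self_of_nhds, ← hq]
    obtain ⟨a', -⟩ := hΘ.1 _ hsrc'
    apply χ.injOn a' hz'
    have h1 := haff.self_of_nhds
    rw [h1, ← hv, ← hwdef, ha]
    have h2 : χ q = v + w := by rw [hwdef]; abel
    rw [h2]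
    abel
  refine ⟨G, hGU, z', m, ξ v, hm, hz', hGz, ?_, ?_⟩
  · intro h0
    rw [h0, norm_zero] at hcz
    linarith
  -- the derivative along the flow
  have hit : ∀ i : ℕ, (H s)^[i] z' ∈ K := by
    intro i
    induction i with
    | zero => exact hzK
    | succ i ih => rw [Function.iterate_succ_apply']; exact hKH s _ ih
  have hcomm' : ∀ (i : ℕ) (t : ℝ), (H s)^[i] (Φ t z') = Φ t ((H s)^[i] z') := by
    intro i t
    induction i with
    | zero => rfl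
    | succ i ih =>
      rw [Function.iterate_succ_apply', ih, hcomm t _ (hit i), ← Function.iterate_succ_apply' (H s)]
  have hg : DifferentiableAt ℝ (fun x => χ (G^[m] (χ.symm x))) v := by
    have h1 : ContDiffAt ℝ 1 (fun x => χ (G^[m] (χ.symm x))) (χ z') :=
      Pool.Agent.Y863.CO.cda hr G m hχ.mem hz' (by rw [hGz]; exact hz')
    rw [hv]
    exact h1.differentiableAt one_ne_zero
  rw [← hv]
  have hc0 : χ (Φ 0 z') = v := by rw [hΦ0, hv]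
  have e1 : HasDerivAt (fun t => χ (G^[m] (χ.symm (χ (Φ t z')))))
      (fderiv ℝ (fun x => χ (G^[m] (χ.symm x))) v (ξ v)) 0 := by
    have h1 : HasFDerivAt (fun x => χ (G^[m] (χ.symm x)))
        (fderiv ℝ (fun x => χ (G^[m] (χ.symm x))) v) (χ (Φ 0 z')) := by
      rw [hc0]; exact hg.hasFDerivAt
    exact h1.comp_hasDerivAt (0 : ℝ) hdz
  have e2 : HasDerivAt (fun t => χ (Φ t q) + (a + E (χ (Φ t q) - v))) (ξ (χ q) + E (ξ (χ q))) 0 := by
    have h1 : HasDerivAt (fun t => χ (Φ t q) - v) (ξ (χ q)) 0 := hdw.sub_const v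
    have h2 : HasDerivAt (fun t => E (χ (Φ t q) - v)) (E (ξ (χ q))) 0 :=
      E.hasFDerivAt.comp_hasDerivAt (0 : ℝ) h1
    exact hdw.add (h2.const_add a)
  have e3 : (fun t => χ (G^[m] (χ.symm (χ (Φ t z'))))) =ᶠ[𝓝 0]
      fun t => χ (Φ t q) + (a + E (χ (Φ t q) - v)) := by
    have t1 : Tendsto (fun t => Φ t z') (𝓝 0) (𝓝 z') := by
      have := (hΦc z').tendsto 0
      rwa [hΦ0] at this
    have t2 : Tendsto (fun t => Φ t q) (𝓝 0) (𝓝 q) := by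
      have := (hΦc q).tendsto 0
      rwa [hΦ0] at this
    filter_upwards [t1.eventually keym, t1.eventually (χ.open_source.mem_nhds hz'),
      t2.eventually haff] with t h1 h2 h3
    rw [χ.left_inv h2, h1, hcomm' m t, ← hq, h3]
  have e4 := e1.unique (e2.congr_of_eventuallyEq e3)
  rw [e4, hE]
  abel

end

/-- EIG -/
theorem eig (hLIN : S_LIN) (hFLD : S_FLD.{u}) : S_EIG.{u} := by
  intro n N _ _ _ _ _ r hr P _ _ H hfam hF χ z hχ Φ hΦ K hKΦ hKH hcomm hret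
  by_contra hcon
  push Not at hcon
  obtain ⟨U, hU, hFU, -, hhyp⟩ := Pool.Agent.Y504.CO.stable_hyp Pool.Agent.Y504.CO.Plug.hF2 hr hF
  obtain ⟨ξ, c, L, δ, hc, hL, hδ, hξ, hlip⟩ := hFLD n N Φ hΦ χ z hχ hcon
  obtain ⟨G, hG, z', m, e, hm, hz', hGz, he, hD⟩ := eig_core hLIN hr hfam hχ (ι := Unit)
    (Ψ := fun _ => Φ) (ζ := fun _ => ξ) (fun _ => hΦ.zero)
    (fun _ y => hΦ.smooth.continuous.comp (continuous_id.prodMk continuous_const)) hc hL hδ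
    (fun _ => hξ) (fun _ => hlip) hKH (fun _ => ()) hcomm hret hU hFU
  have h1 := hhyp G hG z' ⟨m, hm, hGz⟩ m hm hGz χ hχ.mem hz'
  apply he
  exact h1 (fun _ => e) ⟨‖e‖, fun _ => le_rfl⟩ (fun _ => hD.symm) 0

end Pool.Agent.N15.OT
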