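import Pool.Agent.N15.OT.Stm
import Pool.Agent.R773.FC.Loc

/-!
# Families of perturbations which fix the periodic orbits
-/

set_option autoImplicit false
set_option linter.unusedSectionVars false

open scoped Manifold ContDiff Topology
open Filter Set Metric

universe u

namespace Pool.Agent.N15.OT

open Pool.Agent.H718R2.G Pool.Agent.W564.SC Pool.Agent.TH80.OMS Pool.Agent.R773.FC
  Pool.Agent.Y504.CO

section

variable {n : ℕ} {N : Type u} [TopologicalSpace N] [T2Space N] [CompactSpace N]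
  [ChartedSpace (V n) N] [IsManifold (𝓡 n) ∞ N]

/-- Local closing in a family. -/
theorem fam_closing {r : ℕ∞} (hr : 1 ≤ r) {P : Type} [NormedAddCommGroup P] [NormedSpace ℝ P]
    {H : P → DiffM n N r} (hfam : IsFam n N r H) {χ : OpenPartialHomeomorph N (V n)} {z : N}
    (hχ : GoodChart n N χ z) {K : Set N} (h : FamRet (fun s => (H s : N → N)) χ K)
    {U : Set (DiffM n N r)} (hU : IsOpen[strongTop n N r] U) (hFU : H 0 ∈ U) {O : Set N}
    (hO : IsOpen O) (hzO : z ∈ O) :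
    ∃ (s : P), ∃ G ∈ U, ∃ z' ∈ O, IsPer G z' ∧ ∀ y, H s y ∉ O → G y = H s y := by
  obtain ⟨k, hk1, hkr, κ₀, hκ₀, hN⟩ := t_NBHD n N r hr P H hfam χ z hχ U hU hFU
  obtain ⟨C, hC, hB⟩ := Pool.Agent.W271.SC.bump n k hk1
  -- a small ball in the chart is contained in `O`
  obtain ⟨κ₁, hκ₁, hO1⟩ : ∃ κ₁ : ℝ, 0 < κ₁ ∧ ∀ y ∈ χ.source, ‖χ y‖ < κ₁ → y ∈ O := by
    have h0 : (0 : V n) ∈ χ.target := by
      rw [← hχ.zero]
      exact χ.map_source hχ.src
    have hc : ContinuousAt χ.symm 0 := χ.continuousAt_symm h0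
    have hz0 : χ.symm 0 = z := by rw [← hχ.zero]; exact χ.left_inv hχ.src
    have h2 : ∀ᶠ x in 𝓝 (0 : V n), χ.symm x ∈ O := by
      apply hc.eventually_mem
      rw [hz0]
      exact hO.mem_nhds hzO
    obtain ⟨ε, hε, h3⟩ := Metric.eventually_nhds_iff.1 h2
    refine ⟨ε, hε, fun y hy hyn => ?_⟩
    have h4 := h3 (y := χ y) (by rw [dist_zero_right]; exact hyn)
    rwa [χ.left_inv hy] at h4
  set κ := min (min (min κ₀ (1 / 16)) (min (κ₀ / C) (1 / (2 * C)))) (κ₁ / 4) with hκ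
  have k0 : 0 < κ := by positivity
  have k1 : κ ≤ κ₀ := ((min_le_left _ _).trans (min_le_left _ _)).trans (min_le_left _ _)
  have k2 : κ ≤ 1 / 16 := ((min_le_left _ _).trans (min_le_left _ _)).trans (min_le_right _ _)
  have k3 : κ ≤ κ₀ / C := ((min_le_left _ _).trans (min_le_right _ _)).trans (min_le_left _ _)
  have k4 : κ ≤ 1 / (2 * C) :=
    ((min_le_left _ _).trans (min_le_right _ _)).trans (min_le_right _ _)
  have k5 : κ ≤ κ₁ / 4 := min_le_right _ _
  obtain ⟨s, z', ρ, m, hs, -, hz', hz'n, hρ, hρκ, hm, hsrc, hw, hi⟩ := h k κ k0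
  refine ⟨s, ?_⟩
  have hi' : ∀ i, 0 < i → i < m → (H s)^[i] z' ∈ χ.source →
      2 * ρ ≤ ‖χ ((H s)^[i] z') - χ z'‖ := hi
  have hsrc' : (H s)^[m] z' ∈ χ.source := hsrc
  obtain ⟨v, hv⟩ : ∃ v : V n, v = χ z' := ⟨_, rfl⟩
  obtain ⟨w, hwdef⟩ : ∃ w : V n, w = χ ((H s)^[m] z') - v := ⟨_, rfl⟩
  have hw' : ‖w‖ < κ * ρ ^ k := by rw [hwdef, hv]; exact hw
  rw [← hv] at hi' hz'n
  have hρk : 0 < ρ ^ k := pow_pos hρ k
  have hρ1 : ρ ≤ 1 := by linarith
  have hρk' : ρ ^ k ≤ ρ := by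
    calc ρ ^ k ≤ ρ ^ 1 := pow_le_pow_of_le_one hρ.le hρ1 hk1
      _ = ρ := pow_one ρ
  have hwρ : ‖w‖ ≤ ρ := by
    refine hw'.le.trans ?_
    calc κ * ρ ^ k ≤ 1 * ρ ^ k := by gcongr; linarith
      _ = ρ ^ k := one_mul _
      _ ≤ ρ := hρk'
  obtain ⟨u, hu, huw, hu0⟩ := hB ρ hρ (by linarith) _ hwρ
  have hq : ‖w‖ / ρ ^ k ≤ κ := by
    rw [div_le_iff₀ hρk]; exact hw'.le
  have hc1 : C * (‖w‖ / ρ ^ k) ≤ κ₀ := by
    calc C * (‖w‖ / ρ ^ k) ≤ C * (κ₀ / C) :=
          mul_le_mul_of_nonneg_left (hq.trans k3) hC.le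
      _ = κ₀ := by field_simp
  have hc2 : C * (‖w‖ / ρ ^ k) ≤ 1 / 2 := by
    calc C * (‖w‖ / ρ ^ k) ≤ C * (1 / (2 * C)) :=
          mul_le_mul_of_nonneg_left (hq.trans k4) hC.le
      _ = 1 / 2 := by field_simp
  have hsh := small_shift (v := v) hu hu0 (by linarith)
  obtain ⟨Θ, hΘ⟩ := Pool.Agent.W428.SC.push n N r χ z hχ (fun x => u (x - v))
    (small_mono hsh hk1 hc2)
  have hGU := hN s (fun x => u (x - v)) Θ (hs.trans_le k1)
    (small_mono hsh le_rfl hc1) hΘ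
  have hG : ∀ y, ((H s).trans Θ) y = Θ (H s y) := fun y => rfl
  have hfix : ∀ y, (y ∈ χ.source → 2 * ρ ≤ ‖χ y - v‖) → Θ y = y := by
    intro y hy
    by_cases hys : y ∈ χ.source
    · obtain ⟨a, b⟩ := hΘ.1 _ hys
      have b1 : χ (Θ y) = χ y + u (χ y - v) := b
      rw [hu0 _ (hy hys), add_zero] at b1
      exact χ.injOn a hys b1
    · exact hΘ.2 _ hys
  refine ⟨(H s).trans Θ, hGU, z', hO1 z' hz' (by rw [← hv]; linarith), ⟨m, hm, ?_⟩, ?_⟩
  · have key : ∀ i, i < m → (⇑((H s).trans Θ))^[i] z' = (H s)^[i] z' := by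
      intro i
      induction i with
      | zero => intro _; rfl
      | succ i ih =>
        intro him
        rw [Function.iterate_succ_apply', ih (by omega), hG, ← Function.iterate_succ_apply' (H s)]
        exact hfix _ (hi' (i + 1) (Nat.succ_pos i) him)
    obtain ⟨m', rfl⟩ : ∃ m', m = m' + 1 := ⟨m - 1, by omega⟩
    rw [Function.iterate_succ_apply', key m' (by omega), hG, ← Function.iterate_succ_apply' (H s)]
    obtain ⟨a, b⟩ := hΘ.1 _ hsrc'
    apply χ.injOn a hz'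
    have b' : χ (Θ ((H s)^[m' + 1] z')) = χ ((H s)^[m' + 1] z') + u w := by
      rw [hwdef]; exact b
    rw [b', huw, hwdef, ← hv]
    abel
  · intro y hy
    rw [hG]
    apply hfix
    intro hys
    by_contra hcon
    push Not at hcon
    apply hy
    apply hO1 _ hys
    have := norm_sub_norm_le (χ (H s y)) v
    linarith

end

theorem fper : S_FPER.{u} := by
  intro n N _ _ _ _ _ r hr P _ _ H hfam hF hfixP χ z hχ K hret
  by_contra hcon
  obtain ⟨U₁, hU₁, hFU₁, hfin⟩ := finite_per hr hF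
  obtain ⟨U₀, hU₀, hFU₀, hconj⟩ := hF
  have hU : IsOpen[strongTop n N r] (U₀ ∩ U₁) := @IsOpen.inter _ (strongTop n N r) _ _ hU₀ hU₁
  obtain ⟨s, G, hG, z', hz', ⟨m, hm, hmz⟩, hsupp⟩ := fam_closing hr hfam hχ hret hU ⟨hFU₀, hFU₁⟩
    (O := (closure (Per (H 0)))ᶜ) isClosed_closure.isOpen_compl hcon
  have hsub : {x | (H 0)^[m] x = x} ⊆ {x | G^[m] x = x} := by
    intro x hx
    have hx' : (H 0)^[m] x = x := hx
    have hper : ∀ i : ℕ, (H 0)^[i] x ∈ Per (H 0) := by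
      intro i
      refine ⟨m, hm, ?_⟩
      rw [← Function.iterate_add_apply, add_comm, Function.iterate_add_apply, hx']
    have key : ∀ i : ℕ, G^[i] x = (H 0)^[i] x := by
      intro i
      induction i with
      | zero => rfl
      | succ i ih =>
        have h1 : H s ((H 0)^[i] x) = (H 0)^[i + 1] x := by
          rw [hfixP s _ (hper i), Function.iterate_succ_apply']
        rw [Function.iterate_succ_apply', ih, ← h1]
        apply hsupp
        rw [h1]
        intro h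
        exact h (subset_closure (hper (i + 1)))
    show G^[m] x = x
    rw [key m, hx']
  have hne : {x | (H 0)^[m] x = x} ⊂ {x | G^[m] x = x} := by
    refine ⟨hsub, fun h => ?_⟩
    have h1 : z' ∈ {x | (H 0)^[m] x = x} := h hmz
    exact hz' (subset_closure ⟨m, hm, h1⟩)
  have h1 := Set.ncard_lt_ncard hne (hfin G hG.2 m hm)
  have h2 := Pool.Agent.Y504.CO.ncard_conj (H 0).continuous G.continuous (hconj G hG.1) hm
  omega

end Pool.Agent.N15.OT
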