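import Pool.Agent.N15.OT.Stm

/-!
# LIN: scaled bump functions which are affine near 0 (helper764)

Model: Pool/Agent/W271/SC/Bump.lean.
-/

set_option autoImplicit false

open scoped Manifold ContDiff Topology
open Filter Set Metric

namespace Pool.Agent.N15.OT

open Pool.Agent.H718R2.G Pool.Agent.W564.SC

theorem lin : S_LIN := by
  intro n k
  let β : ContDiffBump (0 : V n) := ⟨1, 2, one_pos, one_lt_two⟩
  have hβs : ContDiff ℝ ∞ (β : V n → ℝ) := β.contDiff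
  have hβc : HasCompactSupport (β : V n → ℝ) := β.hasCompactSupport
  let G : V n → ℝ × V n := fun y => (β y, (β y : ℝ) • y)
  have hGs : ContDiff ℝ ∞ G := hβs.prodMk (hβs.smul contDiff_id)
  have hGc : HasCompactSupport G := by
    refine hβc.mono ?_
    intro y hy
    rw [Function.mem_support] at hy ⊢
    intro h0
    apply hy
    change ((β y : ℝ), (β y : ℝ) • y) = 0
    rw [h0, zero_smul]
    rfl
  have hbd : ∀ j : ℕ, ∃ C : ℝ, ∀ x : V n, ‖iteratedFDeriv ℝ j G x‖ ≤ C := by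
    intro j
    have hc : Continuous (iteratedFDeriv ℝ j G) :=
      hGs.continuous_iteratedFDeriv (by exact_mod_cast le_top)
    exact hc.bounded_above_of_compact_support (hGc.iteratedFDeriv j)
  choose C hC using hbd
  have hC0 : ∀ j, 0 ≤ C j := fun j => (norm_nonneg _).trans (hC j 0)
  refine ⟨1 + ∑ j ∈ Finset.range (k + 1), C j, ?_, ?_⟩
  · have := Finset.sum_nonneg (fun j (_ : j ∈ Finset.range (k + 1)) => hC0 j)
    linarith
  intro ρ hρ hρ4 a E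
  set M : V n →L[ℝ] V n := ρ⁻¹ • ContinuousLinearMap.id ℝ (V n) with hM
  set Lw : ℝ × V n →L[ℝ] V n :=
    ((ContinuousLinearMap.id ℝ ℝ).smulRight a).comp (ContinuousLinearMap.fst ℝ ℝ (V n)) +
      (ρ • E).comp (ContinuousLinearMap.snd ℝ ℝ (V n)) with hLw
  have hMx : ∀ x, M x = ρ⁻¹ • x := fun x => by simp [hM]
  have hLx : ∀ c : ℝ, ∀ v : V n, Lw (c, v) = c • a + ρ • E v := fun c v => by simp [hLw]
  have hnM : ‖M‖ ≤ ρ⁻¹ := by
    refine ContinuousLinearMap.opNorm_le_bound _ (inv_nonneg.2 hρ.le) (fun x => ?_)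
    rw [hMx, norm_smul, Real.norm_of_nonneg (inv_nonneg.2 hρ.le)]
  have hnL : ‖Lw‖ ≤ ‖a‖ + ρ * ‖E‖ := by
    refine ContinuousLinearMap.opNorm_le_bound _ (by positivity) (fun c => ?_)
    obtain ⟨c, v⟩ := c
    rw [hLx]
    refine (norm_add_le _ _).trans ?_
    rw [norm_smul, norm_smul, Real.norm_of_nonneg hρ.le]
    have h1 : ‖c‖ ≤ ‖(c, v)‖ := norm_fst_le (c, v)
    have h2 : ‖v‖ ≤ ‖(c, v)‖ := norm_snd_le (c, v)
    have h3 : ‖E v‖ ≤ ‖E‖ * ‖(c, v)‖ := (E.le_opNorm v).trans (by gcongr)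
    calc ‖c‖ * ‖a‖ + ρ * ‖E v‖ ≤ ‖(c, v)‖ * ‖a‖ + ρ * (‖E‖ * ‖(c, v)‖) := by gcongr
      _ = (‖a‖ + ρ * ‖E‖) * ‖(c, v)‖ := by ring
  have hρ1 : 1 ≤ ρ⁻¹ := by
    rw [one_le_inv₀ hρ]; linarith
  have hnx : ∀ x : V n, ‖ρ⁻¹ • x‖ = ‖x‖ / ρ := fun x => by
    rw [norm_smul, Real.norm_of_nonneg (inv_nonneg.2 hρ.le), div_eq_inv_mul]
  have hval : ∀ x : V n, (Lw ∘ (G ∘ M)) x = (β (ρ⁻¹ • x) : ℝ) • (a + E x) := by
    intro x
    change Lw ((β (M x) : ℝ), (β (M x) : ℝ) • M x) = _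
    rw [hLx, hMx, map_smul, map_smul, smul_add, smul_comm (ρ : ℝ), smul_smul ρ,
      mul_inv_cancel₀ hρ.ne', one_smul]
  have hzero : ∀ x : V n, 2 * ρ ≤ ‖x‖ → (Lw ∘ (G ∘ M)) x = 0 := by
    intro x hx
    have h1 : β (ρ⁻¹ • x) = 0 := by
      apply β.zero_of_le_dist
      rw [dist_zero_right, hnx]
      show (2 : ℝ) ≤ _
      rw [le_div_iff₀ hρ]
      exact hx
    rw [hval, h1, zero_smul]
  refine ⟨Lw ∘ (G ∘ M), ⟨?_, ?_, ?_⟩, ?_, hzero⟩
  · exact Lw.contDiff.comp (hGs.comp M.contDiff)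
  · intro x hx
    exact hzero x (by linarith)
  · intro j hj x
    have hcomp : ContDiff ℝ ∞ (G ∘ M) := hGs.comp M.contDiff
    have h1 : ‖iteratedFDeriv ℝ j (Lw ∘ (G ∘ M)) x‖ ≤
        ‖Lw‖ * ‖iteratedFDeriv ℝ j (G ∘ M) x‖ := by
      apply Lw.norm_iteratedFDeriv_comp_left (hcomp.contDiffAt (x := x))
      exact_mod_cast le_top
    have h2 : ‖iteratedFDeriv ℝ j (G ∘ M) x‖ ≤ C j * (ρ⁻¹) ^ j := by
      rw [M.iteratedFDeriv_comp_right hGs x (by exact_mod_cast le_top)]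
      refine (ContinuousMultilinearMap.norm_compContinuousLinearMap_le _ _).trans ?_
      rw [Finset.prod_const, Finset.card_univ, Fintype.card_fin]
      exact mul_le_mul (hC j _) (pow_le_pow_left₀ (norm_nonneg _) hnM j)
        (pow_nonneg (norm_nonneg _) _) (hC0 j)
    have h3 : (ρ⁻¹) ^ j ≤ (ρ⁻¹) ^ k := pow_le_pow_right₀ hρ1 hj
    have h4 : C j ≤ 1 + ∑ j ∈ Finset.range (k + 1), C j := by
      have := Finset.single_le_sum (fun i (_ : i ∈ Finset.range (k + 1)) => hC0 i)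
        (Finset.mem_range.2 (Nat.lt_succ_of_le hj))
      linarith
    calc ‖iteratedFDeriv ℝ j (Lw ∘ (G ∘ M)) x‖
        ≤ ‖Lw‖ * ‖iteratedFDeriv ℝ j (G ∘ M) x‖ := h1
      _ ≤ (‖a‖ + ρ * ‖E‖) * ((1 + ∑ j ∈ Finset.range (k + 1), C j) * (ρ⁻¹) ^ k) := by
          apply mul_le_mul hnL (h2.trans ?_) (norm_nonneg _) (by positivity)
          exact mul_le_mul h4 h3 (by positivity) ((hC0 j).trans h4)
      _ = (1 + ∑ j ∈ Finset.range (k + 1), C j) * ((‖a‖ + ρ * ‖E‖) / ρ ^ k) := by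
          rw [inv_pow, div_eq_mul_inv]; ring
  · intro x hx
    have h1 : β (ρ⁻¹ • x) = 1 := by
      apply β.one_of_mem_closedBall
      rw [mem_closedBall, dist_zero_right, hnx]
      show _ ≤ (1 : ℝ)
      rw [div_le_one hρ]
      exact hx
    rw [hval, h1, one_smul]

end Pool.Agent.N15.OT
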