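import Pool.Agent.N15.OT.Defs
import Pool.Agent.N813.EM.Lift
import Pool.Agent.N813.FL.Lift

/-!
# Almost returns in compact group extensions

The proofs are those of `N813/EM/Lift`, `N813/CL/Lift`, `N813/FL/Lift`, with the conclusion `FamRet`
instead of `Closable`.
-/

set_option autoImplicit false

open scoped Manifold ContDiff Topology
open Filter Set Metric

universe u v

namespace Pool.Agent.N15.OT

open Pool.Agent.H718R2.G Pool.Agent.W564.SC Pool.Agent.N813.CL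

/-- almost returns from periodic points -/
theorem ret_of_per {n : ℕ} {N : Type u} [TopologicalSpace N]
    {P : Type} [NormedAddCommGroup P] {H : P → N → N} {K : Set N}
    {χ : OpenPartialHomeomorph N (V n)}
    (hper : ∀ κ : ℝ, 0 < κ → ∃ (s : P) (z' : N) (m : ℕ), ‖s‖ < κ ∧ z' ∈ K ∧ z' ∈ χ.source ∧
      ‖χ z'‖ < κ ∧ 1 ≤ m ∧ (H s)^[m] z' = z') :
    FamRet H χ K := by
  intro k κ hκ
  obtain ⟨s, z1, m, hs1, hK1, hs, hn, hm1, hz1m⟩ := hper κ hκ
  have hp : z1 ∈ Function.periodicPts (H s) := Function.mk_mem_periodicPts (n := m) hm1 hz1m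
  have hmp := Function.minimalPeriod_pos_of_mem_periodicPts hp
  set mp := Function.minimalPeriod (H s) z1 with hmpdef
  classical
  obtain ⟨c, hc, hcm'⟩ := Pool.Agent.W216.SC.exists_pos_le (Finset.Ico 1 mp)
    (fun i => if (H s)^[i] z1 ∈ χ.source then ‖χ ((H s)^[i] z1) - χ z1‖ else 1) (by
    intro i hi
    rw [Finset.mem_Ico] at hi
    split_ifs with hsrc
    · apply norm_pos_iff.2
      rw [sub_ne_zero]
      intro h5
      have h6 := χ.injOn hsrc hs h5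
      exact Function.not_isPeriodicPt_of_pos_of_lt_minimalPeriod (by omega) hi.2 h6
    · exact one_pos)
  refine ⟨s, z1, min (c / 2) (κ / 2), mp, hs1, hK1, hs, hn, lt_min (half_pos hc) (half_pos hκ),
    (min_le_right _ _).trans_lt (half_lt_self hκ), hmp, ?_, ?_, ?_⟩
  · rw [hmpdef, Function.iterate_minimalPeriod]
    exact hs
  · rw [hmpdef, Function.iterate_minimalPeriod, sub_self, norm_zero]
    have : 0 < min (c / 2) (κ / 2) := lt_min (half_pos hc) (half_pos hκ)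
    positivity
  · intro i hi0 hi1 hsrc
    have h5 := hcm' i (by rw [Finset.mem_Ico]; omega)
    rw [if_pos hsrc] at h5
    have h6 : min (c / 2) (κ / 2) ≤ c / 2 := min_le_left _ _
    linarith

/-- almost returns in compact group extensions -/
theorem cl_ret {k n : ℕ} {N : Type u}
    [TopologicalSpace N] [T2Space N]
    [CompactSpace N] [ChartedSpace (V n) N] [IsManifold (𝓡 n) ∞ N] {r : ℕ∞}
    {R : V k → N → N} (hR : ExpAction k n N R) {F : DiffM n N r}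
    {K : Set N} {B : Type v} [MetricSpace B]
    {g : B → B} {π : N → B} (hq : IsQuot F R K g π) {z : N} (hz : z ∈ K)
    {χ : OpenPartialHomeomorph N (V n)} (hχ : GoodChart n N χ z)
    (hg : AlmostClose g (π z) ∨ NearPer g (π z)) {H : V k → DiffM n N r}
    (hH : ∀ X y, H X y = F (R X y)) : FamRet (fun X => (H X : N → N)) χ K := by
  have hRc : ∀ a, Continuous (R a) := fun a =>
    hR.smooth.continuous.comp (continuous_const.prodMk continuous_id)
  have hit : ∀ (α : V k) (i : ℕ), ∀ y ∈ K, (H α)^[i] y = R ((i : ℝ) • α) (F^[i] y) :=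
    fun α i y hy => iter_H hR hq.mapF hq.comm α (hH α) i hy
  have hnear : ∀ κ : ℝ, 0 < κ → ∃ η : ℝ, 0 < η ∧ ∀ b', dist b' (π z) < η →
      ∃ z' ∈ K, (z' ∈ χ.source ∧ ‖χ z'‖ < κ) ∧ π z' = b' := by
    intro κ hκ
    have h5 : ∀ᶠ y in 𝓝 z, y ∈ χ.source := χ.open_source.mem_nhds hχ.src
    have h6 : ∀ᶠ y in 𝓝 z, ‖χ y‖ < κ := by
      apply (χ.continuousAt hχ.src).norm.eventually_lt continuousAt_const
      rw [hχ.zero, norm_zero]
      exact hκ
    exact locate hq hRc hz (h5.and h6)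
  rcases hg with hg | hg
  · intro kU κ hκ
    obtain ⟨η, hη, hloc⟩ := hnear (min κ (1 / 2)) (lt_min hκ (by norm_num))
    obtain ⟨c, hc, hac⟩ := hg η hη
    obtain ⟨ρ1, hρ1, hsep⟩ := sep hq hχ hc
    set ρ := min (ρ1 / 2) (κ / 2) with hρ
    have hρ' : 0 < ρ := lt_min (half_pos hρ1) (half_pos hκ)
    have hρκ : ρ < κ := (min_le_right _ _).trans_lt (half_lt_self hκ)
    have hε : 0 < κ * ρ ^ kU := by positivity
    obtain ⟨W, hWo, hWd, hW⟩ := chart_nhds hχ hε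
    obtain ⟨cR, δ, hδ, hdiag⟩ := near_diag hq hRc hWo hWd
    obtain ⟨M, hM, hroot⟩ := small_root (k := k) hκ cR
    obtain ⟨m, b', hMm, hb', hclose, hiso⟩ := hac δ hδ M
    obtain ⟨z', hz'K, ⟨hz's, hz'n⟩, hz'π⟩ := hloc b' hb'
    have hFm : F^[m] z' ∈ K := iter_mem hq m hz'K
    obtain ⟨β, hβc, hβ⟩ := hdiag (F^[m] z') hFm z' hz'K (by
      rw [iter_equi hq m hz'K, hz'π]
      exact hclose)
    obtain ⟨α, hα, hαR⟩ := hroot m hMm β hβc
    obtain ⟨hs1, hs2⟩ := hW _ _ hβ hz's (hz'n.trans_le (min_le_right _ _))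
    have hend : (H α)^[m] z' = R β (F^[m] z') := by rw [hit _ _ _ hz'K, hαR]
    refine ⟨α, z', ρ, m, hα, hz'K, hz's, hz'n.trans_le (min_le_left _ _), hρ', hρκ, hM.trans hMm,
      ?_, ?_, ?_⟩
    · show (H α)^[m] z' ∈ χ.source
      rw [hend]
      exact hs1
    · show ‖χ ((H α)^[m] z') - χ z'‖ < κ * ρ ^ kU
      rw [hend]
      exact hs2
    · intro i hi0 him hsrc
      have hK : (H α)^[i] z' ∈ K := by
        rw [hit _ _ _ hz'K]
        exact hq.mapR _ _ (iter_mem hq i hz'K)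
      have hπi : π ((H α)^[i] z') = g^[i] (π z') := by
        rw [hit _ _ _ hz'K, hq.inv _ _ (iter_mem hq i hz'K), iter_equi hq i hz'K]
      have h5 := hsep z' hz'K _ hK (by rw [hπi, hz'π]; exact hiso i hi0 him) hz's
        (hz'n.trans_le (min_le_right _ _)) hsrc
      have h6 : ρ ≤ ρ1 / 2 := min_le_left _ _
      linarith
  · apply ret_of_per
    intro κ hκ
    obtain ⟨η, hη, hloc⟩ := hnear κ hκ
    obtain ⟨b', m, hm, hb', hper⟩ := hg η hη
    obtain ⟨z', hz'K, ⟨hz's, hz'n⟩, hz'π⟩ := hloc b' hb'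
    obtain ⟨cR, hcR⟩ := hq.fib
    obtain ⟨M, hM, hroot⟩ := small_root (k := k) hκ cR
    have hperM : g^[m * M] b' = b' := by
      have : Function.IsPeriodicPt g m b' := hper
      exact this.mul_const M
    obtain ⟨β, hβc, hβ⟩ := hcR (F^[m * M] z') (iter_mem hq _ hz'K) z' hz'K (by
      rw [iter_equi hq _ hz'K, hz'π, hperM])
    obtain ⟨α, hα, hαR⟩ := hroot (m * M) (Nat.le_mul_of_pos_left M hm) β hβc
    refine ⟨α, z', m * M, hα, hz'K, hz's, hz'n, Nat.mul_pos hm hM, ?_⟩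
    show (H α)^[m * M] z' = z'
    rw [hit _ _ _ hz'K, hαR, hβ]

open Pool.Agent.N813.EM in
/-- the lift of polynomially close returns -/
theorem em_ret {k n : ℕ} {N : Type u}
    [TopologicalSpace N] [T2Space N]
    [CompactSpace N] [ChartedSpace (V n) N] [IsManifold (𝓡 n) ∞ N] {r : ℕ∞}
    {R : V k → N → N} (hR : ExpAction k n N R) {F : DiffM n N r}
    {K : Set N} {B : Type v} [MetricSpace B]
    {g : B → B} {π : N → B} (hq : IsQuot F R K g π) {z : N} (hz : z ∈ K)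
    {χ : OpenPartialHomeomorph N (V n)} (hχ : GoodChart n N χ z) (hup : HolUp χ K π)
    (hlow : HolLow χ R K π) (hg : PolyClose g (π z)) {H : V k → DiffM n N r}
    (hH : ∀ X y, H X y = F (R X y)) : FamRet (fun X => (H X : N → N)) χ K := by
  have hRc : ∀ a, Continuous (R a) := fun a =>
    hR.smooth.continuous.comp (continuous_const.prodMk continuous_id)
  have hit : ∀ (α : V k) (i : ℕ), ∀ y ∈ K, (H α)^[i] y = R ((i : ℝ) • α) (F^[i] y) :=
    fun α i y hy => iter_H hR hq.mapF hq.comm α (hH α) i hy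
  have hnear : ∀ κ : ℝ, 0 < κ → ∃ η : ℝ, 0 < η ∧ ∀ b', dist b' (π z) < η →
      ∃ z' ∈ K, (z' ∈ χ.source ∧ ‖χ z'‖ < κ) ∧ π z' = b' := by
    intro κ hκ
    have h5 : ∀ᶠ y in 𝓝 z, y ∈ χ.source := χ.open_source.mem_nhds hχ.src
    have h6 : ∀ᶠ y in 𝓝 z, ‖χ y‖ < κ := by
      apply (χ.continuousAt hχ.src).norm.eventually_lt continuousAt_const
      rw [hχ.zero, norm_zero]
      exact hκ
    exact locate hq hRc hz (h5.and h6)
  obtain ⟨C₁', θ₁, e, hθ₁, he, hup⟩ := hup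
  obtain ⟨C₂', θ₂, δ, cR, hθ₂, hδ, hlow⟩ := hlow
  intro kU κ hκ
  obtain ⟨η₁, hη₁, hloc⟩ := hnear (min κ (min δ (e / 2))) (by positivity)
  obtain ⟨C₁, hC₁⟩ : ∃ C₁ : ℝ, C₁ = max C₁' 1 := ⟨_, rfl⟩
  obtain ⟨C₂, hC₂⟩ : ∃ C₂ : ℝ, C₂ = max C₂' 1 := ⟨_, rfl⟩
  have hC₁0 : 0 < C₁ := by rw [hC₁]; positivity
  have hC₂0 : 0 < C₂ := by rw [hC₂]; positivity
  -- the isolation uses `2 * C₁`
  obtain ⟨A, η₂, hη₂, hsc⟩ := scales (C₁ := 2 ^ θ₁ * C₁) (θ₁ := θ₁) (C₂ := C₂) (θ₂ := θ₂) (κ := κ)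
    (by positivity) hθ₁ hC₂0 hθ₂ hκ (e := e / 4) (by positivity) kU
  obtain ⟨M, hM, hroot⟩ := small_root (k := k) hκ cR
  obtain ⟨m, b', ρ, hMm, hb', hρ0, hρη, hclose, hiso⟩ := hg (A + 1)
    (min (min η₁ η₂) (min δ (1 / 2))) (by positivity) M
  have q1 : ρ < η₂ := hρη.trans_le ((min_le_left _ _).trans (min_le_right _ _))
  have q2 : ρ < δ := hρη.trans_le ((min_le_right _ _).trans (min_le_left _ _))
  have q3 : ρ < 1 / 2 := hρη.trans_le ((min_le_right _ _).trans (min_le_right _ _))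
  have q4 : dist b' (π z) < η₁ := hb'.trans_le ((min_le_left _ _).trans (min_le_left _ _))
  obtain ⟨rr, hr0, hr2, hrκ, hrC, hrk⟩ := hsc ρ hρ0 q1
  obtain ⟨z', hz'K, ⟨hz's, hz'n⟩, hz'π⟩ := hloc b' q4
  have n1 : ‖χ z'‖ < κ := hz'n.trans_le (min_le_left _ _)
  have n2 : ‖χ z'‖ < δ := hz'n.trans_le ((min_le_right _ _).trans (min_le_left _ _))
  have n3 : ‖χ z'‖ < e / 2 := hz'n.trans_le ((min_le_right _ _).trans (min_le_right _ _))
  have hFm : F^[m] z' ∈ K := iter_mem hq m hz'K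
  have hρA : ρ ^ (A + 1) ≤ ρ := by
    have := pow_le_pow_of_le_one hρ0.le (by linarith : ρ ≤ 1) (by omega : 1 ≤ A + 1)
    rwa [pow_one] at this
  have hρA' : ρ ^ (A + 1) ≤ ρ ^ A :=
    pow_le_pow_of_le_one hρ0.le (by linarith : ρ ≤ 1) (by omega)
  have hd : dist (π (F^[m] z')) (π z') = dist (g^[m] b') b' := by
    rw [iter_equi hq m hz'K, hz'π]
  obtain ⟨β, hβc, hβs, hβ⟩ := hlow (F^[m] z') hFm z' hz'K hz's n2 (by
    rw [hd]
    linarith)
  obtain ⟨α, hα, hαR⟩ := hroot m hMm β hβc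
  have hend : (H α)^[m] z' = R β (F^[m] z') := by rw [hit _ _ _ hz'K, hαR]
  refine ⟨α, z', rr, m, hα, hz'K, hz's, n1, hr0, hrκ, hM.trans hMm, ?_, ?_, ?_⟩
  · show (H α)^[m] z' ∈ χ.source
    rw [hend]
    exact hβs
  · show ‖χ ((H α)^[m] z') - χ z'‖ < κ * rr ^ kU
    rw [hend]
    rw [hd] at hβ
    refine hβ.trans_lt (lt_of_le_of_lt ?_ hrk)
    apply mul_le_mul
    · rw [hC₂]; exact le_max_left _ _
    · exact Real.rpow_le_rpow dist_nonneg (hclose.trans hρA') hθ₂.le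
    · exact Real.rpow_nonneg dist_nonneg _
    · exact hC₂0.le
  · intro i hi0 him hsrc
    have hK : (H α)^[i] z' ∈ K := by
      rw [hit _ _ _ hz'K]
      exact hq.mapR _ _ (iter_mem hq i hz'K)
    have hπi : π ((H α)^[i] z') = g^[i] (π z') := by
      rw [hit _ _ _ hz'K, hq.inv _ _ (iter_mem hq i hz'K), iter_equi hq i hz'K]
    by_cases hn : ‖χ ((H α)^[i] z')‖ < e
    · have h5 := hup _ hK z' hz'K hsrc hz's hn (by linarith)
      rw [hπi, hz'π] at h5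
      have h6 := (hiso i hi0 him).trans h5
      have h7 : C₁' * ‖χ ((H α)^[i] z') - χ z'‖ ^ θ₁ ≤ C₁ * ‖χ ((H α)^[i] z') - χ z'‖ ^ θ₁ := by
        apply mul_le_mul_of_nonneg_right _ (Real.rpow_nonneg (norm_nonneg _) _)
        rw [hC₁]; exact le_max_left _ _
      have h8 : C₁ * (2 * rr) ^ θ₁ ≤ C₁ * ‖χ ((H α)^[i] z') - χ z'‖ ^ θ₁ := by
        rw [Real.mul_rpow two_pos.le hr0.le]
        linarith
      have h9 := (mul_le_mul_iff_right₀ hC₁0).1 h8
      exact (Real.rpow_le_rpow_iff (by positivity) (norm_nonneg _) hθ₁).1 h9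
    · push Not at hn
      have := norm_sub_norm_le (χ ((H α)^[i] z')) (χ z')
      linarith

open Pool.Agent.N813.FL in
/-- almost returns in compact group extensions, with the help of a commuting flow -/
theorem fl_ret {k n : ℕ} {N : Type u} [TopologicalSpace N] [T2Space N] [CompactSpace N]
    [ChartedSpace (V n) N] [IsManifold (𝓡 n) ∞ N] {r : ℕ∞}
    {R : V k → N → N} (hR : ExpAction k n N R) {Φ : ℝ → N → N} (hΦ : SmFlow n N Φ)
    {F : DiffM n N r} {K : Set N} {B : Type v} [MetricSpace B]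
    {g : B → B} {π : N → B} (hq : IsQuot F R K g π) {ψ : ℝ → B → B} (hfl : FlowOn F R K π Φ ψ)
    {z : N} (hz : z ∈ K) {χ : OpenPartialHomeomorph N (V n)} (hχ : GoodChart n N χ z)
    (hg : AlmostCloseFl g ψ (π z) ∨ NearPerFl g ψ (π z)) {H : V k × ℝ → DiffM n N r}
    (hH : ∀ q y, H q y = F (R q.1 (Φ q.2 y))) : FamRet (fun q => (H q : N → N)) χ K := by
  have hRc : ∀ a, Continuous (R a) := fun a =>
    hR.smooth.continuous.comp (continuous_const.prodMk continuous_id)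
  have hit : ∀ (q : V k × ℝ) (i : ℕ), ∀ y ∈ K,
      (H q)^[i] y = R ((i : ℝ) • q.1) (Φ (i * q.2) (F^[i] y)) :=
    fun q i y hy => iter_fl hR hΦ hq.mapF hq.mapR hq.comm hfl q (hH q) i hy
  have hitK : ∀ (q : V k × ℝ) (i : ℕ), ∀ y ∈ K, (H q)^[i] y ∈ K := fun q i y hy => by
    rw [hit _ _ _ hy]
    exact hq.mapR _ _ (hfl.map _ _ (iter_mem hq i hy))
  have hitπ : ∀ (q : V k × ℝ) (i : ℕ), ∀ y ∈ K,
      π ((H q)^[i] y) = ψ (i * q.2) (g^[i] (π y)) := fun q i y hy => by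
    rw [hit _ _ _ hy, hq.inv _ _ (hfl.map _ _ (iter_mem hq i hy)),
      hfl.equi _ _ (iter_mem hq i hy), iter_equi hq i hy]
  have hnear : ∀ κ : ℝ, 0 < κ → ∃ η : ℝ, 0 < η ∧ ∀ b', dist b' (π z) < η →
      ∃ z' ∈ K, (z' ∈ χ.source ∧ ‖χ z'‖ < κ) ∧ π z' = b' := by
    intro κ hκ
    have h5 : ∀ᶠ y in 𝓝 z, y ∈ χ.source := χ.open_source.mem_nhds hχ.src
    have h6 : ∀ᶠ y in 𝓝 z, ‖χ y‖ < κ := by
      apply (χ.continuousAt hχ.src).norm.eventually_lt continuousAt_const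
      rw [hχ.zero, norm_zero]
      exact hκ
    exact locate hq hRc hz (h5.and h6)
  rcases hg with hg | hg
  · intro kU κ hκ
    obtain ⟨η, hη, hloc⟩ := hnear (min κ (1 / 2)) (lt_min hκ (by norm_num))
    obtain ⟨c, hc, hac⟩ := hg κ hκ η hη
    obtain ⟨ρ1, hρ1, hsep⟩ := sep hq hχ hc
    set ρ := min (ρ1 / 2) (κ / 2) with hρ
    have hρ' : 0 < ρ := lt_min (half_pos hρ1) (half_pos hκ)
    have hρκ : ρ < κ := (min_le_right _ _).trans_lt (half_lt_self hκ)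
    have hε : 0 < κ * ρ ^ kU := by positivity
    obtain ⟨W, hWo, hWd, hW⟩ := chart_nhds hχ hε
    obtain ⟨cR, δ, hδ, hdiag⟩ := near_diag hq hRc hWo hWd
    obtain ⟨M, hM, hroot⟩ := small_root (k := k) hκ cR
    obtain ⟨m, b', s, hMm, hs, hb', hclose, hiso⟩ := hac δ hδ M
    obtain ⟨z', hz'K, ⟨hz's, hz'n⟩, hz'π⟩ := hloc b' hb'
    have hFm : Φ (m * s) (F^[m] z') ∈ K := hfl.map _ _ (iter_mem hq m hz'K)
    obtain ⟨β, hβc, hβ⟩ := hdiag (Φ (m * s) (F^[m] z')) hFm z' hz'K (by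
      rw [hfl.equi _ _ (iter_mem hq m hz'K), iter_equi hq m hz'K, hz'π]
      exact hclose)
    obtain ⟨α, hα, hαR⟩ := hroot m hMm β hβc
    obtain ⟨hs1, hs2⟩ := hW _ _ hβ hz's (hz'n.trans_le (min_le_right _ _))
    have hend : (H (α, s))^[m] z' = R β (Φ (m * s) (F^[m] z')) := by
      rw [hit _ _ _ hz'K]
      show R ((m : ℝ) • α) (Φ (m * s) (F^[m] z')) = _
      rw [hαR]
    refine ⟨(α, s), z', ρ, m, ?_, hz'K, hz's, hz'n.trans_le (min_le_left _ _), hρ', hρκ,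
      hM.trans hMm, ?_, ?_, ?_⟩
    · rw [Prod.norm_def]
      exact max_lt hα hs
    · show (H (α, s))^[m] z' ∈ χ.source
      rw [hend]
      exact hs1
    · show ‖χ ((H (α, s))^[m] z') - χ z'‖ < κ * ρ ^ kU
      rw [hend]
      exact hs2
    · intro i hi0 him hsrc
      have h5 := hsep z' hz'K _ (hitK (α, s) i z' hz'K) (by
        rw [hitπ (α, s) i z' hz'K, hz'π]; exact hiso i hi0 him) hz's
        (hz'n.trans_le (min_le_right _ _)) hsrc
      have h6 : ρ ≤ ρ1 / 2 := min_le_left _ _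
      linarith
  · apply ret_of_per
    intro κ hκ
    obtain ⟨η, hη, hloc⟩ := hnear κ hκ
    obtain ⟨b', m, s, hm, hs, hb', hper⟩ := hg κ hκ η hη
    obtain ⟨z', hz'K, ⟨hz's, hz'n⟩, hz'π⟩ := hloc b' hb'
    obtain ⟨cR, hcR⟩ := hq.fib
    obtain ⟨M, hM, hroot⟩ := small_root (k := k) hκ cR
    have hu : ∀ j : ℕ, ((H (0, s))^[m])^[j] z' ∈ K ∧ π (((H (0, s))^[m])^[j] z') = b' := by
      intro j
      induction j with
      | zero => exact ⟨hz'K, hz'π⟩
      | succ j ih =>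
        rw [Function.iterate_succ_apply']
        exact ⟨hitK _ _ _ ih.1, by rw [hitπ _ _ _ ih.1, ih.2]; exact hper⟩
    have hu' := hu M
    rw [← Function.iterate_mul] at hu'
    obtain ⟨β, hβc, hβ⟩ := hcR _ hu'.1 z' hz'K (hu'.2.trans hz'π.symm)
    obtain ⟨α, hα, hαR⟩ := hroot (m * M) (Nat.le_mul_of_pos_left M hm) β hβc
    refine ⟨(α, s), z', m * M, ?_, hz'K, hz's, hz'n, Nat.mul_pos hm hM, ?_⟩
    · rw [Prod.norm_def]
      exact max_lt hα hs
    · show (H (α, s))^[m * M] z' = z'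
      rw [hit _ _ _ hz'K]
      show R (((m * M : ℕ) : ℝ) • α) _ = z'
      rw [hαR]
      rw [hit _ _ _ hz'K] at hβ
      simpa [hR.zero] using hβ

end Pool.Agent.N15.OT
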