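import Pool.Agent.N15.OT.Stm
import Pool.Agent.N813.CL.Defs

/-!
# The vector fields of an exponential action in a chart: statement
-/

set_option autoImplicit false

open scoped Manifold ContDiff Topology
open Filter Set Metric

universe u

namespace Pool.Agent.N15.OT

open Pool.Agent.H718R2.G Pool.Agent.W564.SC Pool.Agent.N813.CL

/-- FLD2: the vector fields of an exponential action near a point. -/
def S_FLD2 : Prop :=
  ∀ (n k : ℕ) (N : Type u) [TopologicalSpace N] [T2Space N] [CompactSpace N]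
    [ChartedSpace (V n) N] [IsManifold (𝓡 n) ∞ N] (R : V k → N → N), ExpAction k n N R →
    ∀ (χ : OpenPartialHomeomorph N (V n)) (z : N), GoodChart n N χ z →
    ∃ (A : V n → V k →L[ℝ] V n) (L δ : ℝ), 0 < L ∧ 0 < δ ∧
      (∀ X : V k, ∀ y ∈ χ.source, ‖χ y‖ < δ →
        HasDerivAt (fun t : ℝ => χ (R (t • X) y)) (A (χ y) X) 0) ∧
      (∀ x x' : V n, ‖x‖ < δ → ‖x'‖ < δ → ‖A x - A x'‖ ≤ L * ‖x - x'‖) ∧
      ∀ X : V k, A 0 X = 0 → ∀ t : ℝ, R (t • X) z = z

end Pool.Agent.N15.OT
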