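import Pool.Agent.N15.OT.EIG
import Pool.Agent.N15.OT.FPER
import Pool.Agent.N15.OT.LIN
import Pool.Agent.N15.OT.Stm2
import Pool.Agent.N15.OT.Lift

/-!
# `Ω`-stable diffeomorphisms and compact group extensions: the general statement
-/

set_option autoImplicit false
set_option linter.unusedSectionVars false

open scoped Manifold ContDiff Topology
open Filter Set Metric

universe u

namespace Pool.Agent.N15.OT

open Pool.Agent.H718R2.G Pool.Agent.W564.SC Pool.Agent.TH80.OMS Pool.Agent.R773.FC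
  Pool.Agent.Y504.CO Pool.Agent.N813.CL

/-- `X ↦ R_X` is an action of the group `ℝ^k`. -/
def AbAct {k : ℕ} {N : Type u} (R : V k → N → N) : Prop :=
  ∀ X X' y, R (X + X') y = R X (R X' y)

/-- The one-parameter group `t ↦ R_(tX)` fixes `z`, for some `X ≠ 0` (if `k ≥ 1`). If the `R_X` form
an action of `ℝ^k`, then all of them fix `z`. If they act trivially on `K`, then `z` is a limit of
periodic points of `F`. If they commute with `F` on all of `N`, then they fix `z`, and `z` is a limit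
of periodic points of `F`. -/
def Trivial {k : ℕ} {N : Type u} [TopologicalSpace N] (F : N → N) (R : V k → N → N) (K : Set N)
    (z : N) : Prop :=
  (1 ≤ k → ∃ X : V k, X ≠ 0 ∧ ∀ t : ℝ, R (t • X) z = z) ∧
  (AbAct R → ∀ X, R X z = z) ∧
  ((∀ X, ∀ y ∈ K, R X y = y) → z ∈ closure (Per F)) ∧
  ((∀ X y, F (R X y) = R X (F y)) → (∀ X, R X z = z) ∧ z ∈ closure (Per F))

section

variable {k n : ℕ} {N : Type u} [TopologicalSpace N] [T2Space N] [CompactSpace N]
  [ChartedSpace (V n) N] [IsManifold (𝓡 n) ∞ N]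

/-- The one-parameter groups of an exponential action are flows. -/
theorem sflow {R : V k → N → N} (hR : ExpAction k n N R) (X : V k) :
    SFlow n N fun t y => R (t • X) y where
  smooth := by
    have h1 : ContMDiff (𝓘(ℝ, ℝ).prod (𝓡 n)) (𝓡 k) ∞ (fun q : ℝ × N => q.1 • X) := by
      have h2 : ContMDiff 𝓘(ℝ, ℝ) (𝓡 k) ∞ (fun t : ℝ => t • X) :=
        (contDiff_id.smul contDiff_const).contMDiff
      exact h2.comp contMDiff_fst
    exact hR.smooth.comp (h1.prodMk contMDiff_snd)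
  zero := fun y => by rw [zero_smul, hR.zero]
  add := fun s t y => hR.line s t X y

/-- `Ω`-stable maps: the flows commuting with `F` everywhere fix the periodic points. -/
theorem fix_per {r : ℕ∞} (hr : 1 ≤ r) {F : DiffM n N r} (hF : OmegaStable n N r F)
    {Φ : ℝ → N → N} (hΦ : SFlow n N Φ) (hc : ∀ t y, F (Φ t y) = Φ t (F y)) {x : N}
    (hx : x ∈ Per F) (t : ℝ) : Φ t x = x := by
  obtain ⟨m, hm, hmx⟩ := hx
  obtain ⟨U₁, hU₁, hFU₁, hfin⟩ := finite_per hr hF
  have hfinF := hfin F hFU₁ m hm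
  have hit : ∀ (i : ℕ) (t : ℝ) (y : N), F^[i] (Φ t y) = Φ t (F^[i] y) := by
    intro i t y
    induction i with
    | zero => rfl
    | succ i ih => rw [Function.iterate_succ_apply', ih, hc, ← Function.iterate_succ_apply' F]
  have hmem : ∀ t, Φ t x ∈ {y | F^[m] y = y} := fun t => by
    show F^[m] (Φ t x) = Φ t x
    rw [hit, hmx]
  have hcont : Continuous fun t => Φ t x :=
    hΦ.smooth.continuous.comp (continuous_id.prodMk continuous_const)
  obtain ⟨y, -, hy⟩ := isPreconnected_univ.eqOn_const_of_mapsTo (T := {y | F^[m] y = y})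
    (S := (univ : Set ℝ)) (f := fun t => Φ t x) hfinF.isDiscrete hcont.continuousOn
    (fun t _ => hmem t) ⟨_, hmem 0⟩
  have h1 : Φ t x = y := hy (mem_univ t)
  have h2 : Φ 0 x = y := hy (mem_univ 0)
  rw [h1, ← h2, hΦ.zero]

theorem iter_K {F : N → N} {K : Set N} (hFK : ∀ y ∈ K, F y ∈ K) {y : N} (hy : y ∈ K) (i : ℕ) :
    F^[i] y ∈ K := by
  induction i with
  | zero => exact hy
  | succ i ih => rw [Function.iterate_succ_apply']; exact hFK _ ih

/-- Some one-parameter group fixes `z`. -/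
theorem eig_exp (hLIN : S_LIN) (hFLD2 : S_FLD2.{u}) {r : ℕ∞} (hr : 1 ≤ r) {F : DiffM n N r}
    (hF : OmegaStable n N r F) {R : V k → N → N} (hR : ExpAction k n N R)
    {χ : OpenPartialHomeomorph N (V n)} {z : N} (hχ : GoodChart n N χ z) {K : Set N}
    (hKF : ∀ y ∈ K, F y ∈ K) (hKR : ∀ X, ∀ y ∈ K, R X y ∈ K)
    (hcomm : ∀ X, ∀ y ∈ K, F (R X y) = R X (F y)) {H : V k → DiffM n N r}
    (hH : ∀ X y, H X y = F (R X y)) (hH0 : H 0 = F) (hfam : IsFam n N r H)
    (hret : FamRet (fun X => (H X : N → N)) χ K) (hk : 1 ≤ k) :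
    ∃ X : V k, X ≠ 0 ∧ ∀ t : ℝ, R (t • X) z = z := by
  by_contra hcon
  push Not at hcon
  obtain ⟨A, L, δ, hL, hδ, hA, hlip, hA0⟩ := hFLD2 n k N R hR χ z hχ
  have hinj : LinearMap.ker (A 0 : V k →ₗ[ℝ] V n) = ⊥ := by
    rw [LinearMap.ker_eq_bot']
    intro X hX
    by_contra hX0
    obtain ⟨t, ht⟩ := hcon X hX0
    exact ht (hA0 X hX t)
  obtain ⟨C, hC, hanti⟩ := LinearMap.exists_antilipschitzWith _ hinj
  have hC0 : (0 : ℝ) < C := hC
  have hlow : ∀ X : V k, ‖X‖ = 1 → 1 / (C : ℝ) ≤ ‖A 0 X‖ := by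
    intro X hX
    have h1 := hanti.le_mul_dist X 0
    rw [dist_zero_right, map_zero, dist_zero_right, hX] at h1
    have h1' : (1 : ℝ) ≤ C * ‖A 0 X‖ := h1
    rw [div_le_iff₀ hC0, mul_comm]
    exact h1'
  obtain ⟨c, hc⟩ : ∃ c : ℝ, c = 1 / (2 * C) := ⟨_, rfl⟩
  have hc0 : 0 < c := by rw [hc]; positivity
  have hcC : 1 / (C : ℝ) = 2 * c := by rw [hc]; field_simp
  obtain ⟨δ', hδ'⟩ : ∃ δ' : ℝ, δ' = min δ (c / L) := ⟨_, rfl⟩
  have hδ'0 : 0 < δ' := by rw [hδ']; positivity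
  have hδδ : δ' ≤ δ := by rw [hδ']; exact min_le_left _ _
  have hδc : δ' ≤ c / L := by rw [hδ']; exact min_le_right _ _
  have hAc : ∀ X : V k, ‖X‖ = 1 → ∀ x : V n, ‖x‖ < δ' → c ≤ ‖A x X‖ := by
    intro X hX x hx
    have h1 := hlip 0 x (by rw [norm_zero]; exact hδ) (hx.trans_le hδδ)
    have h2 : ‖(A 0 - A x) X‖ ≤ ‖A 0 - A x‖ * ‖X‖ := (A 0 - A x).le_opNorm X
    rw [hX, mul_one] at h2
    have h3 : ‖A 0 X‖ - ‖A x X‖ ≤ ‖(A 0 - A x) X‖ := norm_sub_norm_le _ _
    have h4 : L * ‖(0 : V n) - x‖ ≤ c := by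
      rw [zero_sub, norm_neg]
      have := hx.le.trans hδc
      rw [le_div_iff₀ hL] at this
      linarith
    have h5 := hlow X hX
    rw [hcC] at h5
    linarith
  -- the directions
  have : Nontrivial (V k) := by
    have : Nonempty (Fin k) := ⟨⟨0, hk⟩⟩
    infer_instance
  obtain ⟨X₁, hX₁⟩ := exists_norm_eq (V k) (zero_le_one (α := ℝ))
  obtain ⟨U, hU, hFU, -, hhyp⟩ := Pool.Agent.Y504.CO.stable_hyp Pool.Agent.Y504.CO.Plug.hF2 hr hF
  classical
  let j : V k → {X : V k // ‖X‖ = 1} := fun X =>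
    if hX : X = 0 then ⟨X₁, hX₁⟩ else ⟨‖X‖⁻¹ • X, norm_smul_inv_norm hX⟩
  have hj : ∀ X : V k, X = ‖X‖ • (j X : V k) := by
    intro X
    by_cases hX : X = 0
    · rw [hX, norm_zero, zero_smul]
    · have : (j X : V k) = ‖X‖⁻¹ • X := by simp [j, hX]
      rw [this, smul_smul, mul_inv_cancel₀ (norm_ne_zero_iff.2 hX), one_smul]
  obtain ⟨G, hG, z', m, e, hm, hz', hGz, he, hD⟩ := eig_core hLIN hr hfam hχ
    (ι := {X : V k // ‖X‖ = 1})
    (Ψ := fun X t y => R (t • (X : V k)) y) (ζ := fun X x => A x X)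
    (fun X y => by rw [zero_smul, hR.zero])
    (fun X y => hR.smooth.continuous.comp
      ((continuous_id.smul continuous_const).prodMk continuous_const)) hc0 hL hδ'0
    (fun X y hy hyn => ⟨hA X y hy (hyn.trans_le hδδ), hAc X X.2 _ hyn⟩)
    (fun X x x' hx hx' => by
      have h1 := hlip x x' (hx.trans_le hδδ) (hx'.trans_le hδδ)
      have h2 := (A x - A x').le_opNorm X
      rw [X.2, mul_one] at h2
      exact h2.trans h1)
    (K := K) (fun X y hy => by rw [hH]; exact hKF _ (hKR _ _ hy)) j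
    (fun X t y hy => by
      rw [hH, hH]
      have h1 : R X (R (t • (j X : V k)) y) = R (t • (j X : V k)) (R X y) := by
        have e1 := hR.line ‖X‖ t (j X : V k) y
        have e2 := hR.line t ‖X‖ (j X : V k) y
        rw [← hj X] at e1 e2
        rw [← e1, ← e2, add_comm]
      rw [h1, hcomm _ _ (hKR _ _ hy)]) hret hU (hH0 ▸ hFU)
  have h1 := hhyp G hG z' ⟨m, hm, hGz⟩ m hm hGz χ hχ.mem hz'
  apply he
  exact h1 (fun _ => e) ⟨‖e‖, fun _ => le_rfl⟩ (fun _ => hD.symm) 0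

theorem trivial_of_ret (hLIN : S_LIN) (hFLD : S_FLD.{u}) (hFLD2 : S_FLD2.{u}) {r : ℕ∞}
    (hr : 1 ≤ r) {F : DiffM n N r} (hF : OmegaStable n N r F) {R : V k → N → N}
    (hR : ExpAction k n N R) {χ : OpenPartialHomeomorph N (V n)} {z : N}
    (hχ : GoodChart n N χ z) {K : Set N} (hKF : ∀ y ∈ K, F y ∈ K)
    (hKR : ∀ X, ∀ y ∈ K, R X y ∈ K) (hcomm : ∀ X, ∀ y ∈ K, F (R X y) = R X (F y))
    (hret : ∀ {H : V k → DiffM n N r}, (∀ X y, H X y = F (R X y)) →
      FamRet (fun X => (H X : N → N)) χ K) :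
    Trivial F R K z := by
  obtain ⟨H, hH, hH0, hfam⟩ := exp_fam hR r F
  have hret' := hret hH
  have hF' : OmegaStable n N r (H 0) := hH0.symm ▸ hF
  have hKH : ∀ X, ∀ y ∈ K, H X y ∈ K := fun X y hy => by rw [hH]; exact hKF _ (hKR _ _ hy)
  refine ⟨fun hk => eig_exp hLIN hFLD2 hr hF hR hχ hKF hKR hcomm hH hH0 hfam hret' hk, ?_, ?_, ?_⟩
  · intro hab X
    have h1 := eig hLIN hFLD n N r hr (V k) H hfam hF' χ z hχ _ (sflow hR X) K
      (fun t y hy => hKR _ _ hy) hKH (fun Y t y hy => by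
        have h2 : R Y (R (t • X) y) = R (t • X) (R Y y) := by
          rw [← hab, ← hab, add_comm]
        rw [hH, hH, h2, hcomm _ _ (hKR _ _ hy)]) hret' 1
    rw [one_smul] at h1
    exact h1
  · intro htriv
    apply per_of_lclosable hr hF
    apply lclosable_of_ret hr F hχ
    intro k' κ hκ
    obtain ⟨X, z', ρ, m, -, hzK, hz', hz'n, hρ, hρκ, hm, hsrc, hw, hi⟩ := hret' k' κ hκ
    have key : ∀ i, (H X)^[i] z' = F^[i] z' := by
      intro i
      induction i with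
      | zero => rfl
      | succ i ih =>
        rw [Function.iterate_succ_apply', ih, hH, htriv X _ (iter_K hKF hzK i),
          ← Function.iterate_succ_apply' F]
    simp only [key] at hsrc hw hi
    exact ⟨z', ρ, m, hz', hz'n, hρ, hρκ, hm, hsrc, hw, hi⟩
  · intro hc
    have hfix : ∀ X, ∀ y ∈ Per F, R X y = y := by
      intro X y hy
      have h1 := fix_per hr hF (sflow hR X) (fun t y => hc _ _) hy 1
      rw [one_smul] at h1
      exact h1
    have hz : z ∈ closure (Per F) := by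
      have h1 := fper n N r hr (V k) H hfam hF' (fun X y hy => by
        rw [hH0] at hy ⊢
        rw [hH, hfix X y hy]) χ z hχ K hret'
      rw [hH0] at h1
      exact h1
    refine ⟨fun X => ?_, hz⟩
    have hRc : Continuous (R X) :=
      hR.smooth.continuous.comp (continuous_const.prodMk continuous_id)
    have hcl : IsClosed {y | R X y = y} := isClosed_eq hRc continuous_id
    exact closure_minimal (fun y hy => hfix X y hy) hcl hz

/-- The flow commuting with the maps of the family fixes `z`. -/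
theorem flow_trivial (hLIN : S_LIN) (hFLD : S_FLD.{u}) {r : ℕ∞}
    (hr : 1 ≤ r) {F : DiffM n N r} (hF : OmegaStable n N r F) {R : V k → N → N}
    (hR : ExpAction k n N R) {Φ : ℝ → N → N} (hΦ : Pool.Agent.N813.FL.SmFlow n N Φ)
    {χ : OpenPartialHomeomorph N (V n)} {z : N}
    (hχ : GoodChart n N χ z) {K : Set N} {B : Type*} {π : N → B} {ψ : ℝ → B → B}
    (hKF : ∀ y ∈ K, F y ∈ K)
    (hKR : ∀ X, ∀ y ∈ K, R X y ∈ K) (hcomm : ∀ X, ∀ y ∈ K, F (R X y) = R X (F y))
    (hfl : Pool.Agent.N813.FL.FlowOn F R K π Φ ψ)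
    (hret : ∀ {H : V k × ℝ → DiffM n N r}, (∀ q y, H q y = F (R q.1 (Φ q.2 y))) →
      FamRet (fun X => (H X : N → N)) χ K) (t : ℝ) : Φ t z = z := by
  obtain ⟨H, hH, hH0, hfam⟩ := Pool.Agent.N813.FL.fl_fam hR hΦ r F
  have hret' := hret hH
  have hF' : OmegaStable n N r (H 0) := hH0.symm ▸ hF
  refine eig hLIN hFLD n N r hr (V k × ℝ) H hfam hF' χ z hχ Φ ⟨hΦ.smooth, hΦ.zero, hΦ.add⟩ K
    (fun t y hy => hfl.map t y hy) (fun q y hy => ?_) (fun q t y hy => ?_) hret' t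
  · rw [hH]
    exact hKF _ (hKR _ _ (hfl.map _ _ hy))
  · rw [hH, hH]
    have h1 : Φ q.2 (Φ t y) = Φ t (Φ q.2 y) := by
      rw [← hΦ.add, ← hΦ.add, add_comm]
    have h2 := hfl.map q.2 y hy
    rw [h1, hfl.commR _ _ _ h2, hfl.commF _ _ (hKR _ _ h2)]

end

end Pool.Agent.N15.OT
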