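import Pool.Agent.N15.OT.Defs

/-!
# `Ω`-stable diffeomorphisms and families of perturbations: statements of the parts
-/

set_option autoImplicit false

open scoped Manifold ContDiff Topology
open Filter Set Metric

universe u

namespace Pool.Agent.N15.OT

open Pool.Agent.H718R2.G Pool.Agent.W564.SC Pool.Agent.TH80.OMS

/-- LIN: scaled bump functions which are affine near the origin. -/
def S_LIN : Prop :=
  ∀ n k : ℕ, ∃ C : ℝ, 0 < C ∧ ∀ ρ : ℝ, 0 < ρ → ρ ≤ 1 / 4 → ∀ (a : V n) (E : V n →L[ℝ] V n),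
    ∃ u : V n → V n, Small n k (C * ((‖a‖ + ρ * ‖E‖) / ρ ^ k)) u ∧
      (∀ x, ‖x‖ ≤ ρ → u x = a + E x) ∧ ∀ x, 2 * ρ ≤ ‖x‖ → u x = 0

/-- FLD: the vector field of a flow near a point which is not fixed. -/
def S_FLD : Prop :=
  ∀ (n : ℕ) (N : Type u) [TopologicalSpace N] [T2Space N] [CompactSpace N]
    [ChartedSpace (V n) N] [IsManifold (𝓡 n) ∞ N] (Φ : ℝ → N → N), SFlow n N Φ →
    ∀ (χ : OpenPartialHomeomorph N (V n)) (z : N), GoodChart n N χ z → (∃ t, Φ t z ≠ z) →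
    ∃ (ξ : V n → V n) (c L δ : ℝ), 0 < c ∧ 0 < L ∧ 0 < δ ∧
      (∀ y ∈ χ.source, ‖χ y‖ < δ →
        HasDerivAt (fun t => χ (Φ t y)) (ξ (χ y)) 0 ∧ c ≤ ‖ξ (χ y)‖) ∧
      ∀ x x' : V n, ‖x‖ < δ → ‖x'‖ < δ → ‖ξ x - ξ x'‖ ≤ L * ‖x - x'‖

/-- EIG: if `F` is `Ω`-stable and the family `H` (`H 0 = F`) has almost returns near `z` in a set on
which it commutes with a flow, then `z` is fixed by the flow. -/
def S_EIG : Prop :=
  ∀ (n : ℕ) (N : Type u) [TopologicalSpace N] [T2Space N] [CompactSpace N]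
    [ChartedSpace (V n) N] [IsManifold (𝓡 n) ∞ N] (r : ℕ∞), 1 ≤ r →
    ∀ (P : Type) [NormedAddCommGroup P] [NormedSpace ℝ P] (H : P → DiffM n N r), IsFam n N r H →
    OmegaStable n N r (H 0) → ∀ (χ : OpenPartialHomeomorph N (V n)) (z : N), GoodChart n N χ z →
    ∀ (Φ : ℝ → N → N), SFlow n N Φ → ∀ K : Set N, (∀ t, ∀ y ∈ K, Φ t y ∈ K) →
    (∀ s, ∀ y ∈ K, H s y ∈ K) → (∀ s t, ∀ y ∈ K, H s (Φ t y) = Φ t (H s y)) →
    FamRet (fun s => (H s : N → N)) χ K → ∀ t, Φ t z = z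

/-- FPER: if `F` is `Ω`-stable and the family `H` (`H 0 = F`) fixes the periodic orbits of `F` and has
almost returns near `z`, then `z` is a limit of periodic points. -/
def S_FPER : Prop :=
  ∀ (n : ℕ) (N : Type u) [TopologicalSpace N] [T2Space N] [CompactSpace N]
    [ChartedSpace (V n) N] [IsManifold (𝓡 n) ∞ N] (r : ℕ∞), 1 ≤ r →
    ∀ (P : Type) [NormedAddCommGroup P] [NormedSpace ℝ P] (H : P → DiffM n N r), IsFam n N r H →
    OmegaStable n N r (H 0) → (∀ s, ∀ y ∈ Per (H 0), H s y = H 0 y) →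
    ∀ (χ : OpenPartialHomeomorph N (V n)) (z : N), GoodChart n N χ z → ∀ K : Set N,
    FamRet (fun s => (H s : N → N)) χ K → z ∈ closure (Per (H 0))

end Pool.Agent.N15.OT
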